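import Pool.Agent.Q170.FZ.Pairs

/-!
The number of integral points at which a polynomial has no large prime divisor whose exponent is not
divisible by a given number (helper file).
-/

set_option autoImplicit false

namespace Pool.Agent.Q170.SA

open MvPolynomial Pool.Agent.Q170.ZP.Count Pool.Agent.Q170.FZ

variable {r : ℕ}

/-- There are few integral points at which all large prime divisors of `D (t)` which do not divide
`E (t)` have exponents divisible by `κ`. -/
theorem card_badS (D E : MvPolynomial (Fin r) ℤ) (hD : 0 < D.totalDegree) (hDE : IsRelPrime D E)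
    (κ Q : ℕ) (hκ : 1 ≤ κ) (ε : ℝ) (hε : 0 < ε) :
    ∃ C : ℝ, 0 < C ∧ ∀ H : ℕ, 1 ≤ H → ∀ Bad : Finset (Fin r → ℤ), Bad ⊆ box r H →
      (∀ t ∈ Bad, ¬ ∃ p : ℕ, p.Prime ∧ Q < p ∧ ¬ κ ∣ (eval t D).natAbs.factorization p ∧
        ¬ (p : ℤ) ∣ eval t E) →
      (Bad.card : ℝ) ≤ C * (H : ℝ) ^ ((r : ℝ) - 1 + D.totalDegree / (κ : ℝ) + ε) := by
  classical
  obtain ⟨j, hj⟩ := exists_var D hD
  obtain ⟨c, hc, hres⟩ := exists_res D E hDE j
  obtain ⟨C, hC, hcard⟩ := card_pow D j hj c hc Q κ hκ ε hε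
  have hr : 1 ≤ r := by
    have := j.2
    omega
  have hD0 : D ≠ 0 := by
    rintro rfl
    rw [totalDegree_zero] at hD
    omega
  refine ⟨C + D.totalDegree * 3 ^ (r - 1), by positivity, fun H hH Bad hBad hbad => ?_⟩
  have h1 := hcard H hH 1 le_rfl (Bad.filter fun t => eval t D ≠ 0)
    ((Finset.filter_subset _ _).trans hBad) (by
      intro t ht
      rw [Finset.mem_filter] at ht
      refine ⟨ht.2, κ, le_rfl, 1, le_rfl, le_rfl, fun q hq hqQ hqc _ => ?_⟩
      by_cases hqD : (q : ℤ) ∣ eval t D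
      · by_contra h0
        exact hbad t ht.1 ⟨q, hq, hqQ, h0, hres t q hqc hqD⟩
      · rw [Nat.factorization_eq_zero_of_not_dvd fun h => hqD (Int.natCast_dvd.2 h)]
        exact dvd_zero _)
  rw [Nat.cast_one, Real.one_rpow, mul_one] at h1
  have h2 : ((Bad.filter fun t => ¬ eval t D ≠ 0).card : ℝ) ≤
      D.totalDegree * 3 ^ (r - 1) * (H : ℝ) ^ ((r : ℝ) - 1 + D.totalDegree / (κ : ℝ) + ε) := by
    have h3 : (Bad.filter fun t => ¬ eval t D ≠ 0).card ≤
        D.totalDegree * (2 * H + 1) ^ (r - 1) := by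
      refine le_trans (Finset.card_le_card ?_) (card_zero D hD0 hr H)
      intro t ht
      rw [Finset.mem_filter] at ht ⊢
      exact ⟨hBad ht.1, not_not.1 ht.2⟩
    have hHR : (1 : ℝ) ≤ H := by exact_mod_cast hH
    have h4 : ((D.totalDegree * (2 * H + 1) ^ (r - 1) : ℕ) : ℝ) ≤
        D.totalDegree * (3 ^ (r - 1) * (H : ℝ) ^ (r - 1)) := by
      push_cast
      rw [← mul_pow]
      refine mul_le_mul_of_nonneg_left (pow_le_pow_left₀ (by positivity) ?_ _) (by positivity)
      linarith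
    have h5 : (H : ℝ) ^ (r - 1) ≤ (H : ℝ) ^ ((r : ℝ) - 1 + D.totalDegree / (κ : ℝ) + ε) := by
      rw [← Real.rpow_natCast]
      refine Real.rpow_le_rpow_of_exponent_le hHR ?_
      rw [Nat.cast_sub hr, Nat.cast_one]
      have h6 : (0 : ℝ) ≤ D.totalDegree / (κ : ℝ) := by positivity
      linarith
    calc ((Bad.filter fun t => ¬ eval t D ≠ 0).card : ℝ) ≤
          ((D.totalDegree * (2 * H + 1) ^ (r - 1) : ℕ) : ℝ) := by exact_mod_cast h3
      _ ≤ D.totalDegree * (3 ^ (r - 1) * (H : ℝ) ^ (r - 1)) := h4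
      _ = D.totalDegree * 3 ^ (r - 1) * (H : ℝ) ^ (r - 1) := by ring
      _ ≤ _ := mul_le_mul_of_nonneg_left h5 (by positivity)
  have h3 := Finset.card_filter_add_card_filter_not (s := Bad) (fun t => eval t D ≠ 0)
  have h4 : (Bad.card : ℝ) = ((Bad.filter fun t => eval t D ≠ 0).card : ℝ) +
      ((Bad.filter fun t => ¬ eval t D ≠ 0).card : ℝ) := by
    rw [← h3]
    push_cast
    rfl
  rw [h4, add_mul]
  exact add_le_add h1 h2

end Pool.Agent.Q170.SA
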