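import Pool.Agent.W466.EG

/-!
Relations between elements of the multiplicative group which are near to one at a place (helper
file).
-/

set_option autoImplicit false

namespace Pool.Agent.Q170.SA

open Pool.Agent.W466.EP

variable {L : Type*} [Field L] {Γ₀ : Type*} [LinearOrderedCommGroupWithZero Γ₀]
  {v : Valuation L Γ₀}

/-- multiples which are prime to `p` -/
theorem pow_coprime {p : ℕ} (hp : v (p : L) < 1) {z : L} (hz : v z < 1) {n : ℕ}
    (hn : Nat.Coprime p n) : v ((1 + z) ^ n - 1) = v z := by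
  have h1 : ∀ n : ℕ, ∃ w : L, v w ≤ 1 ∧ (1 + z) ^ n - 1 = z * (n + z * w) := by
    intro n
    induction n with
    | zero => exact ⟨0, by rw [map_zero]; exact zero_le_one, by simp⟩
    | succ n ih =>
      obtain ⟨w, hw, he⟩ := ih
      refine ⟨w + n + z * w, ?_, ?_⟩
      · refine Valuation.map_add_le _ (Valuation.map_add_le _ hw (v_nat v n)) ?_
        rw [map_mul]
        exact mul_le_one' hz.le hw
      · rw [pow_succ, Nat.cast_succ]
        linear_combination (1 + z) * he
  obtain ⟨w, hw, he⟩ := h1 n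
  rw [he, map_mul]
  have h2 : v ((n : L) + z * w) = 1 := by
    have h3 := v_coprime hp hn
    rw [Valuation.map_add_eq_of_lt_left _ (by
      rw [h3, map_mul]
      exact (mul_le_of_le_one_right' hw).trans_lt hz), h3]
  rw [h2, mul_one]

/-- the `p`-th power -/
theorem pow_prime {p : ℕ} (hpp : p.Prime) (hp0 : v (p : L) ≠ 0) {z : L}
    (hz0 : z ≠ 0) (hz : v z < 1) (hzp : v z ^ (p - 1) < v (p : L)) :
    v ((1 + z) ^ p - 1) = v (p : L) * v z := by
  have hvz : v z ≠ 0 := (map_ne_zero v).2 hz0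
  have hexp : ∃ w : L, v w ≤ 1 ∧ (1 + z) ^ p - 1 = p * z + (p * z * (z * w) + z ^ p) := by
    have h1 : (1 + z) ^ p = ∑ k ∈ Finset.range (p + 1), z ^ k * (p.choose k : L) := by
      rw [add_comm, add_pow]
      refine Finset.sum_congr rfl fun k _ => ?_
      rw [one_pow, mul_one]
    have h2 : ∀ k, 2 ≤ k → k < p → ∃ w : L, v w ≤ 1 ∧
        z ^ k * (p.choose k : L) = p * z * (z * w) := by
      intro k hk hkp
      obtain ⟨c, hc⟩ := hpp.dvd_choose_self (by omega) hkp
      refine ⟨z ^ (k - 2) * c, ?_, ?_⟩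
      · rw [map_mul, map_pow]
        exact mul_le_one' (pow_le_one' hz.le _) (v_nat v c)
      · rw [hc, Nat.cast_mul]
        have h3 : z ^ k = z * z * z ^ (k - 2) := by
          rw [← pow_two, ← pow_add]
          congr 1
          omega
        rw [h3]
        ring
    have h3 : ∀ n, 2 ≤ n → n ≤ p → ∃ w : L, v w ≤ 1 ∧
        ∑ k ∈ Finset.range n, z ^ k * (p.choose k : L) = 1 + p * z + p * z * (z * w) := by
      intro n hn hnp
      induction n, hn using Nat.le_induction with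
      | base =>
        refine ⟨0, by rw [map_zero]; exact zero_le_one, ?_⟩
        rw [Finset.sum_range_succ, Finset.sum_range_one, pow_zero, pow_one, Nat.choose_zero_right,
          Nat.choose_one_right, Nat.cast_one]
        ring
      | succ n hn ih =>
        obtain ⟨w, hw, he⟩ := ih (by omega)
        obtain ⟨w', hw', he'⟩ := h2 n hn (by omega)
        refine ⟨w + w', Valuation.map_add_le _ hw hw', ?_⟩
        rw [Finset.sum_range_succ, he, he']
        ring
    obtain ⟨w, hw, he⟩ := h3 p hpp.two_le le_rfl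
    refine ⟨w, hw, ?_⟩
    rw [h1, Finset.sum_range_succ, he, Nat.choose_self, Nat.cast_one]
    ring
  obtain ⟨w, hw, he⟩ := hexp
  have hpz : 0 < v (p : L) * v z := mul_pos (zero_lt_iff.2 hp0) (zero_lt_iff.2 hvz)
  have h1 : v ((p : L) * z) = v (p : L) * v z := map_mul _ _ _
  rw [he, ← h1]
  refine Valuation.map_add_eq_of_lt_left _ ?_
  rw [h1]
  refine Valuation.map_add_lt _ ?_ ?_
  · rw [map_mul, map_mul]
    have h2 : v (z * w) < 1 := by
      rw [map_mul]
      exact (mul_le_of_le_one_right' hw).trans_lt hz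
    calc v (p : L) * v z * v (z * w) < v (p : L) * v z * 1 := mul_lt_mul_of_pos_left h2 hpz
      _ = v (p : L) * v z := mul_one _
  · rw [map_pow]
    have h2 : p = (p - 1) + 1 := by
      have := hpp.one_lt
      omega
    calc v z ^ p = v z ^ (p - 1) * v z := by rw [← pow_succ, ← h2]
      _ < v (p : L) * v z := mul_lt_mul_of_pos_right hzp (zero_lt_iff.2 hvz)

/-- powers of elements near to one -/
theorem pow_val {p : ℕ} (hpp : p.Prime) (hp0 : v (p : L) ≠ 0) (hp : v (p : L) < 1) {n : ℕ}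
    (hn : n ≠ 0) : ∀ {z : L}, z ≠ 0 → v z < 1 → v z ^ (p - 1) < v (p : L) →
    v ((1 + z) ^ n - 1) = v (n : L) * v z := by
  induction n using Nat.strong_induction_on with
  | _ n ih =>
    intro z hz0 hz hzp
    by_cases hd : p ∣ n
    · obtain ⟨m, rfl⟩ := hd
      have hm0 : m ≠ 0 := right_ne_zero_of_mul hn
      have hlt : m < p * m := lt_mul_of_one_lt_left (Nat.pos_of_ne_zero hm0) hpp.one_lt
      have h1 := pow_prime hpp hp0 hz0 hz hzp
      set z' := (1 + z) ^ p - 1 with hz'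
      have hvz : v z ≠ 0 := (map_ne_zero v).2 hz0
      have hz'0 : z' ≠ 0 := by
        intro h0
        rw [h0, map_zero] at h1
        exact (mul_ne_zero hp0 hvz) h1.symm
      have hle : v z' ≤ v z := by
        rw [h1]
        exact mul_le_of_le_one_left' hp.le
      have h2 := ih m hlt hm0 hz'0 (hle.trans_lt hz)
        ((pow_le_pow_left₀ zero_le hle _).trans_lt hzp)
      have h3 : 1 + z' = (1 + z) ^ p := by rw [hz']; ring
      rw [h3, ← pow_mul] at h2
      rw [h2, h1, Nat.cast_mul, map_mul]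
      rw [mul_comm (v (p : L)) (v (m : L)), mul_assoc]
    · have hc : Nat.Coprime p n := (Nat.Prime.coprime_iff_not_dvd hpp).2 hd
      rw [pow_coprime hp hz hc, v_coprime hp hc, one_mul]

/-- integral powers of elements near to one -/
theorem zpow_val {p : ℕ} (hpp : p.Prime) (hp0 : v (p : L) ≠ 0) (hp : v (p : L) < 1) {n : ℤ}
    (hn : n ≠ 0) {u : L} (hu0 : u ≠ 1) (hu : v (u - 1) < 1)
    (hup : v (u - 1) ^ (p - 1) < v (p : L)) :
    v (u ^ n - 1) = v (n : L) * v (u - 1) := by
  have hz0 : u - 1 ≠ 0 := sub_ne_zero.2 hu0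
  have h1 : ∀ m : ℕ, m ≠ 0 → v (u ^ m - 1) = v (m : L) * v (u - 1) := by
    intro m hm
    have h2 := pow_val hpp hp0 hp hm hz0 hu hup
    rwa [add_sub_cancel] at h2
  have hvu : v u = 1 := by
    have h2 : v (1 + (u - 1)) = 1 := v.map_one_add_of_lt hu
    rwa [add_sub_cancel] at h2
  have hu00 : u ≠ 0 := by
    rintro rfl
    rw [map_zero] at hvu
    exact zero_ne_one hvu
  obtain ⟨m, rfl | rfl⟩ := Int.eq_nat_or_neg n
  · rw [zpow_natCast, Int.cast_natCast]
    exact h1 m (by exact_mod_cast hn)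
  · have hm : m ≠ 0 := by
      rintro rfl
      exact hn (by simp)
    have h2 : u ^ (-(m : ℤ)) - 1 = -(u ^ m - 1) * (u ^ m)⁻¹ := by
      rw [zpow_neg, zpow_natCast]
      field_simp
      ring
    rw [h2, map_mul, Valuation.map_neg, map_inv₀, map_pow, hvu, one_pow, inv_one, mul_one, h1 m hm,
      Int.cast_neg, Int.cast_natCast, Valuation.map_neg]

/-- products of elements near to one, with different distances -/
theorem prod_val {ι : Type*} (S : Finset ι) (w : ι → L)
    (hw : ∀ i ∈ S, v (w i - 1) < 1) (hw0 : ∀ i ∈ S, w i ≠ 1)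
    (hne : ∀ i ∈ S, ∀ j ∈ S, i ≠ j → v (w i - 1) ≠ v (w j - 1)) (hS : S.Nonempty) :
    ∃ i ∈ S, v (∏ j ∈ S, w j - 1) = v (w i - 1) ∧ ∀ j ∈ S, v (w j - 1) ≤ v (w i - 1) := by
  classical
  induction hS using Finset.Nonempty.cons_induction with
  | singleton a =>
    refine ⟨a, Finset.mem_singleton_self a, ?_, ?_⟩
    · rw [Finset.prod_singleton]
    · intro j hj
      rw [Finset.mem_singleton.1 hj]
  | cons a S ha hS ih =>
    have hmem : ∀ i ∈ S, i ∈ Finset.cons a S ha := fun i hi => Finset.mem_cons_of_mem hi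
    obtain ⟨i, hi, hvi, hmax⟩ := ih (fun i hi => hw i (hmem i hi)) (fun i hi => hw0 i (hmem i hi))
      (fun i hi j hj => hne i (hmem i hi) j (hmem j hj))
    have hai : v (w a - 1) ≠ v (w i - 1) := hne a (Finset.mem_cons_self a S) i (hmem i hi) (by
      rintro rfl
      exact ha hi)
    rw [Finset.prod_cons]
    have hPi : v (∏ j ∈ S, w j) = 1 := by
      have h2 : v (1 + (∏ j ∈ S, w j - 1)) = 1 := v.map_one_add_of_lt (by
        rw [hvi]
        exact hw i (hmem i hi))
      rwa [add_sub_cancel] at h2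
    have he : w a * ∏ j ∈ S, w j - 1 = (w a - 1) * ∏ j ∈ S, w j + (∏ j ∈ S, w j - 1) := by ring
    rcases lt_or_gt_of_ne hai with h | h
    · refine ⟨i, hmem i hi, ?_, ?_⟩
      · rw [he, Valuation.map_add_eq_of_lt_right _ (by rw [map_mul, hPi, mul_one, hvi]; exact h),
          hvi]
      · intro j hj
        rcases Finset.mem_cons.1 hj with h1 | h1
        · rw [h1]
          exact h.le
        · exact hmax j h1
    · refine ⟨a, Finset.mem_cons_self a S, ?_, ?_⟩
      · rw [he, Valuation.map_add_eq_of_lt_left _ (by rw [map_mul, hPi, mul_one, hvi]; exact h),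
          map_mul, hPi, mul_one]
      · intro j hj
        rcases Finset.mem_cons.1 hj with h1 | h1
        · rw [h1]
        · exact (hmax j h1).trans h.le

/-- There is no multiplicative relation between the elements of `J` at this place. -/
theorem gm_place {p : ℕ} (hpp : p.Prime) (hp : v (p : L) < 1) {ρ : Γ₀} {R : ℕ}
    (hR : v (p : L) = ρ ^ R) (hR0 : 0 < R) (hρ0 : 0 < ρ) {n : ℕ} (u : Fin n → L)
    (J : Finset (Fin n)) (g : Fin n → ℕ) (hg : ∀ i ∈ J, v (u i - 1) = ρ ^ g i)
    (hgR : ∀ i ∈ J, R < g i * (p - 1))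
    (hdis : ∀ i ∈ J, ∀ j ∈ J, i ≠ j → ¬ g i ≡ g j [MOD R])
    (F : Subfield L) (hF : ∀ z ∈ F, z ≠ 0 → ∃ i : ℤ, v z = v (p : L) ^ i)
    (hgM : ∀ i ∈ J, ¬ R ∣ g i)
    (a : Fin n → ℤ) (ha0 : a ≠ 0) (haJ : ∀ i, i ∉ J → a i = 0) {t : ℕ} (ht : 0 < t)
    (hrel : (∏ i, u i ^ a i) ^ t ∈ F) : False := by
  classical
  have hρ1 : ρ < 1 := by
    by_contra hcon
    push Not at hcon
    have h1 := one_le_pow₀ hcon (n := R)
    rw [← hR] at h1
    exact absurd hp (not_lt.2 h1)
  have hp0 : v (p : L) ≠ 0 := by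
    rw [hR]
    exact (pow_pos hρ0 R).ne'
  have hpow : ∀ {m n : ℕ}, ρ ^ m = ρ ^ n → m = n := fun {m n} h =>
    pow_right_injective₀ hρ0 hρ1.ne h
  have hpt : ∀ i ∈ J, u i ≠ 1 ∧ v (u i - 1) < 1 ∧ v (u i - 1) ^ (p - 1) < v (p : L) := by
    intro i hi
    have h1 := hg i hi
    have h3 : 0 < g i := by
      have := hgR i hi
      by_contra hcon
      have h4 : g i = 0 := by omega
      rw [h4, zero_mul] at this
      omega
    refine ⟨?_, ?_, ?_⟩
    · intro h0
      rw [h0, sub_self, map_zero] at h1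
      exact (pow_pos hρ0 _).ne h1
    · rw [h1]
      exact pow_lt_one₀ zero_le hρ1 h3.ne'
    · rw [h1, hR, ← pow_mul]
      exact pow_lt_pow_right_of_lt_one₀ hρ0 hρ1 (hgR i hi)
  let J' : Finset (Fin n) := Finset.univ.filter fun i => a i ≠ 0
  have hJ' : ∀ i ∈ J', i ∈ J ∧ a i ≠ 0 := by
    intro i hi
    have h5 := (Finset.mem_filter.1 hi).2
    exact ⟨by_contra fun h => h5 (haJ i h), h5⟩
  have hJne : J'.Nonempty := by
    by_contra hcon
    rw [Finset.not_nonempty_iff_eq_empty] at hcon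
    apply ha0
    funext i
    by_contra hi
    have : i ∈ J' := Finset.mem_filter.2 ⟨Finset.mem_univ i, hi⟩
    rw [hcon] at this
    exact absurd this (Finset.notMem_empty i)
  have hta : ∀ i ∈ J', a i * (t : ℤ) ≠ 0 := fun i hi =>
    mul_ne_zero (hJ' i hi).2 (by exact_mod_cast ht.ne')
  have hval : ∀ i ∈ J', v (u i ^ (a i * (t : ℤ)) - 1) =
      ρ ^ (R * (a i * (t : ℤ)).natAbs.factorization p + g i) := by
    intro i hi
    obtain ⟨h5, h6, h7⟩ := hpt i (hJ' i hi).1
    rw [zpow_val hpp hp0 hp (hta i hi) h5 h6 h7, v_int_pow hpp hp (hta i hi), hR,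
      hg i (hJ' i hi).1, ← pow_mul, ← pow_add]
  have hlt : ∀ i ∈ J', v (u i ^ (a i * (t : ℤ)) - 1) < 1 := by
    intro i hi
    rw [hval i hi]
    refine pow_lt_one₀ zero_le hρ1 ?_
    have h5 := hgR i (hJ' i hi).1
    intro h6
    have h7 : g i = 0 := by omega
    rw [h7, zero_mul] at h5
    omega
  have hne1 : ∀ i ∈ J', u i ^ (a i * (t : ℤ)) ≠ 1 := by
    intro i hi h0
    have h5 := hval i hi
    rw [h0, sub_self, map_zero] at h5
    exact (pow_pos hρ0 _).ne h5
  have hne : ∀ i ∈ J', ∀ j ∈ J', i ≠ j →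
      v (u i ^ (a i * (t : ℤ)) - 1) ≠ v (u j ^ (a j * (t : ℤ)) - 1) := by
    intro i hi j hj hij h
    rw [hval i hi, hval j hj] at h
    have h6 := hpow h
    apply hdis i (hJ' i hi).1 j (hJ' j hj).1 hij
    have h8 : ∀ x y : ℕ, R * x + y ≡ y [MOD R] := fun x y => by
      have := (Nat.modEq_zero_iff_dvd.2 (Dvd.intro x rfl : R ∣ R * x)).add_right y
      rwa [zero_add] at this
    have h7 : (R * (a i * (t : ℤ)).natAbs.factorization p + g i) ≡
        (R * (a j * (t : ℤ)).natAbs.factorization p + g j) [MOD R] := by rw [h6]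
    exact (h8 _ _).symm.trans (h7.trans (h8 _ _))
  obtain ⟨i, hi, hvi, -⟩ := prod_val J' (fun i => u i ^ (a i * (t : ℤ))) hlt hne1 hne hJne
  have hprod : (∏ i, u i ^ a i) ^ t = ∏ i ∈ J', u i ^ (a i * (t : ℤ)) := by
    rw [← Finset.prod_pow, Finset.prod_filter]
    refine Finset.prod_congr rfl fun i _ => ?_
    split_ifs with h
    · rw [zpow_mul, zpow_natCast]
    · push Not at h
      rw [h, zpow_zero, one_pow]
  rw [hprod] at hrel
  have h5 : v (∏ i ∈ J', u i ^ (a i * (t : ℤ)) - 1) =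
      ρ ^ (R * (a i * (t : ℤ)).natAbs.factorization p + g i) := by
    rw [hvi]
    exact hval i hi
  have hz0 : ∏ i ∈ J', u i ^ (a i * (t : ℤ)) - 1 ≠ 0 := by
    intro h0
    rw [h0, map_zero] at h5
    exact (pow_pos hρ0 _).ne h5
  obtain ⟨r, hr⟩ := hF _ (F.sub_mem hrel F.one_mem) hz0
  refine hgM i (hJ' i hi).1 ?_
  rw [h5, hR, ← zpow_natCast, ← zpow_natCast, ← zpow_mul] at hr
  have h6 := zpow_right_injective₀ hρ0 hρ1.ne hr
  rw [← Int.natCast_dvd_natCast]
  refine ⟨r - (a i * (t : ℤ)).natAbs.factorization p, ?_⟩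
  push_cast at h6 ⊢
  linear_combination h6

end Pool.Agent.Q170.SA
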