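import Pool.Agent.Q170.ZP.MultiNear

/-!
Families with several parameters which degenerate along one hypersurface: valuation rings which are
good for the members near to the degenerate ones (helper file).
-/

set_option autoImplicit false

open Function MvPolynomial Pool.Agent.W466.ZC Pool.Agent.TH526.ZL Pool.Agent.Q170.ZP.Multi

namespace Pool.Agent.Q170.SA

variable {K : Type} [Field K] [Algebra K ℂ] {k : Type} [Field k] [Algebra k ℂ] [Algebra K k]
  [IsScalarTower K k ℂ] {r : ℕ}

/-- The data at the places near to the degenerate members. -/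
theorem nearS [IsAlgClosed k] {κ : Type} [Finite κ]
    {ι : Type} [Fintype ι] [DecidableEq ι] {N m : ℕ}
    (G : κ → MvPolynomial (Fin (N + 1)) (MvPolynomial (Fin r) K))
    (hG : ∀ i, ∃ e, (G i).IsHomogeneous e)
    (A B : ι → MvPolynomial (Fin (N + 1)) (MvPolynomial (Fin r) K)) (d : ι → ℕ)
    (hA : ∀ i, (A i).IsHomogeneous (d i)) (hB : ∀ i, (B i).IsHomogeneous (d i))
    (c : ι → MvPolynomial (Fin r) K)
    (D E : MvPolynomial (Fin r) ℤ) (b : ι → MvPolynomial (Fin r) K)
    (e : ι → ℕ)
    (hc : ∀ i, c i = MvPolynomial.map (Int.castRingHom K) D ^ e i * b i)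
    (hdis : ∀ (t : Fin r → ℂ), aeval t D = 0 → aeval t E ≠ 0 →
      (∀ I : Finset ι, I.card = m + 1 → ∀ y : Fin (N + 1) → ℂ,
      (∀ i, eval₂ (evM K t) y (G i) = 0) →
      (∀ i ∈ I, eval₂ (evM K t) y (A i) * eval₂ (evM K t) y (B i) = 0) → y = 0) ∧
      ∀ i, evM K t (b i) ≠ 0) :
    ∃ W : Set k, W.Finite ∧ ∀ V : ValuationSubring ℂ, (∀ z ∈ W, algebraMap k ℂ z ∈ V) →
      ∀ (t : Fin r → ℂ), (∀ j, t j ∈ V) → V.valuation (aeval t D) < 1 →
      V.valuation (aeval t E) = 1 →
      ∀ (s : ι → ℂ) (y : Fin (N + 1) → ℂ), y ≠ 0 → (∀ i, eval₂ (evM K t) y (G i) = 0) →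
      (∀ i, eval₂ (evM K t) y (B i) = 0 ∨
        evM K t (c i) * eval₂ (evM K t) y (B i) * s i = eval₂ (evM K t) y (A i)) →
      ∃ E' : Finset ι, E'.card ≤ m ∧ ∀ i, i ∉ E' → eval₂ (evM K t) y (B i) ≠ 0 ∧
        V.valuation (s i) * V.valuation (aeval t D) ^ e i = 1 := by
  classical
  -- the certificates for the cofactors
  have hcert := fun (i : ι) =>
    certP (k := k) (fun a : Empty => (a.elim : MvPolynomial (Fin r ⊕ Empty) k))
      (fun a : Bool => bif a then (ipol k D : MvPolynomial (Fin r ⊕ Empty) k) else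
        flat k (C (b i))) (ipol k E) (by
        intro z _ hF
        obtain ⟨t, y, rfl⟩ : ∃ t y, z = Sum.elim t y :=
          ⟨fun a => z (Sum.inl a), fun a => z (Sum.inr a), by
            funext a
            rcases a with a | a <;> rfl⟩
        rw [aeval_ipol]
        by_contra hE
        have hD : aeval t D = 0 := by
          have h1 := hF true
          simp only [cond_true] at h1
          rwa [aeval_ipol] at h1
        have h2 := hF false
        simp only [cond_false] at h2
        rw [aeval_flat, eval₂_C] at h2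
        exact (hdis t hD hE).2 i h2)
  choose M' U hU using hcert
  let W4 : Set k := ⋃ q : ι, (coefsP (U q true) ∪ coefsP (U q false)) ∪
    coefsP (flat k (C (b q) : MvPolynomial Empty (MvPolynomial (Fin r) K)))
  have hW4 : W4.Finite := Set.finite_iUnion fun q =>
    ((coefsP_finite _).union (coefsP_finite _)).union (coefsP_finite _)
  obtain ⟨W3, hW3, hgood⟩ := goodP (k := k) (m := m) (L := 1) G hG A B (fun _ => D) (fun _ => E)
    (fun _ t hD hE => (hdis t hD hE).1)
  refine ⟨W4 ∪ W3, hW4.union hW3, fun V hV => ?_⟩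
  have hW4V : ∀ z ∈ W4, algebraMap k ℂ z ∈ V := fun z hz =>
    hV _ (Or.inl hz)
  intro t htV hDl hEl s y hy0 hyG hxy
  have hmem : ∀ j : Fin r ⊕ Empty, Sum.elim t (fun a : Empty => (a.elim : ℂ)) j ∈ V := by
    intro j
    rcases j with j | j
    · exact htV j
    · exact j.elim
  have hbV : ∀ i, V.valuation (evM K t (b i)) = 1 := by
    intro i
    have hle : V.valuation (evM K t (b i)) ≤ 1 := by
      have h1 : evM K t (b i) = aeval (Sum.elim t (fun a : Empty => (a.elim : ℂ)))
          (flat k (C (b i) : MvPolynomial Empty (MvPolynomial (Fin r) K))) := by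
        rw [aeval_flat, eval₂_C]
      rw [h1]
      exact (ValuationSubring.valuation_le_one_iff _ _).2 (aeval_mem V _ (fun u hu =>
        hW4V _ (Set.mem_iUnion.2 ⟨i, Or.inr ⟨u, hu, rfl⟩⟩)) hmem)
    refine le_antisymm hle ?_
    by_contra hlt
    push Not at hlt
    have h1 := hU i (Sum.elim t (fun a : Empty => (a.elim : ℂ))) (fun a => a.elim)
    rw [Fintype.sum_bool, aeval_ipol] at h1
    simp only [cond_true, cond_false] at h1
    rw [aeval_ipol, aeval_flat, eval₂_C] at h1
    have hUm : ∀ a, V.valuation (aeval (Sum.elim t (fun a : Empty => (a.elim : ℂ)))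
        (U i a)) ≤ 1 := by
      intro a
      refine (ValuationSubring.valuation_le_one_iff _ _).2 (aeval_mem V _ (fun u hu =>
        hW4V _ (Set.mem_iUnion.2 ⟨i, Or.inl ?_⟩)) hmem)
      cases a
      · exact Or.inr ⟨u, hu, rfl⟩
      · exact Or.inl ⟨u, hu, rfl⟩
    have h2 : V.valuation (aeval t E ^ M' i) < 1 := by
      rw [h1]
      refine Valuation.map_add_lt _ ?_ ?_
      · rw [map_mul]
        exact (mul_le_of_le_one_left' (hUm true)).trans_lt hDl
      · rw [map_mul]
        exact (mul_le_of_le_one_left' (hUm false)).trans_lt hlt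
    rw [map_pow, hEl, one_pow] at h2
    exact lt_irrefl _ h2
  have hcv : ∀ i, V.valuation (evM K t (c i)) = V.valuation (aeval t D) ^ e i := by
    intro i
    rw [hc i, map_mul, map_pow, evM_int, map_mul, map_pow, hbV, mul_one]
  obtain ⟨a, ha0, hAB, hI⟩ := hgood V (fun z hz => hV z (Or.inr hz))
    0 t htV hDl hEl y hy0 hyG
  refine ⟨Finset.univ.filter fun i => ¬ V.valuation (eval₂ (evM K t) (a • y) (A i) *
    eval₂ (evM K t) (a • y) (B i)) = 1, ?_, ?_⟩
  · by_contra h
    push Not at h
    obtain ⟨I, hIE, hIc⟩ := Finset.exists_subset_card_eq (Nat.succ_le_of_lt h)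
    obtain ⟨i, hi, h1⟩ := hI I hIc
    exact (Finset.mem_filter.1 (hIE hi)).2 h1
  · intro i hi
    rw [Finset.mem_filter] at hi
    push Not at hi
    have h1 := hi (Finset.mem_univ i)
    have hA1 := (ValuationSubring.valuation_le_one_iff _ _).2 (hAB i).1
    have hB1 := (ValuationSubring.valuation_le_one_iff _ _).2 (hAB i).2
    rw [map_mul] at h1
    have hA2 : V.valuation (eval₂ (evM K t) (a • y) (A i)) = 1 := by
      refine le_antisymm hA1 ?_
      by_contra h
      push Not at h
      have h2 := (mul_le_of_le_one_right' hB1).trans_lt h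
      rw [h1] at h2
      exact lt_irrefl _ h2
    have hB2 : V.valuation (eval₂ (evM K t) (a • y) (B i)) = 1 := by
      rw [hA2, one_mul] at h1
      exact h1
    have hB3 : eval₂ (evM K t) y (B i) ≠ 0 := by
      intro h0
      rw [ev_smul t (hB i), h0, mul_zero, map_zero] at hB2
      exact zero_ne_one hB2
    refine ⟨hB3, ?_⟩
    have h3 : evM K t (c i) * eval₂ (evM K t) (a • y) (B i) * s i =
        eval₂ (evM K t) (a • y) (A i) := by
      rw [ev_smul t (hA i), ev_smul t (hB i), ← (hxy i).resolve_left hB3]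
      ring
    have h4 := congrArg V.valuation h3
    rw [map_mul, map_mul, hA2, hB2, mul_one, hcv] at h4
    rw [mul_comm]
    exact h4

end Pool.Agent.Q170.SA
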