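import Pool.Agent.W466.EG

/-!
Functions with one pole on elliptic curves and on the multiplicative group near to the pole (helper
file).
-/

set_option autoImplicit false

namespace Pool.Agent.Q170.SA

open Pool.Agent.W466.EP

variable {L : Type*} [Field L] {Γ₀ : Type*} [LinearOrderedCommGroupWithZero Γ₀]
  {v : Valuation L Γ₀}

theorem v_poly_le {f : Polynomial L} (hf : ∀ i, v (f.coeff i) ≤ 1) {x : L} (hx : v x ≤ 1) :
    v (f.eval x) ≤ 1 := by
  rw [Polynomial.eval_eq_sum_range]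
  refine Valuation.map_sum_le _ fun i _ => ?_
  rw [map_mul, map_pow]
  exact mul_le_one' (hf _) (pow_le_one' hx _)

theorem v_poly_le' {f : Polynomial L} (hf : ∀ i, v (f.coeff i) ≤ 1) {x : L} (hx : 1 ≤ v x)
    {d : ℕ} (hd : f.natDegree ≤ d) : v (f.eval x) ≤ v x ^ d := by
  rw [Polynomial.eval_eq_sum_range]
  refine Valuation.map_sum_le _ fun i hi => ?_
  rw [map_mul, map_pow]
  have h1 : i ≤ d := (Nat.lt_succ_iff.1 (Finset.mem_range.1 hi)).trans hd
  calc v (f.coeff i) * v x ^ i ≤ 1 * v x ^ i := mul_le_mul_left (hf i) _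
    _ = v x ^ i := one_mul _
    _ ≤ v x ^ d := pow_le_pow_right₀ hx h1

theorem v_poly_monic {f : Polynomial L} (hf : ∀ i, v (f.coeff i) ≤ 1) (hm : f.Monic) {x : L}
    (hx : 1 < v x) : v (f.eval x) = v x ^ f.natDegree := by
  have hx0 : v x ≠ 0 := (zero_lt_one.trans hx).ne'
  rw [Polynomial.eval_eq_sum_range, Finset.sum_range_succ, hm.coeff_natDegree, one_mul]
  have h1 : v (∑ i ∈ Finset.range f.natDegree, f.coeff i * x ^ i) < v (x ^ f.natDegree) := by
    rw [map_pow]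
    refine Valuation.map_sum_lt _ (pow_ne_zero _ hx0) fun i hi => ?_
    rw [map_mul, map_pow]
    calc v (f.coeff i) * v x ^ i ≤ 1 * v x ^ i := mul_le_mul_left (hf i) _
      _ = v x ^ i := one_mul _
      _ < v x ^ f.natDegree := pow_lt_pow_right₀ hx (Finset.mem_range.1 hi)
  rw [Valuation.map_add_eq_of_lt_right _ h1, map_pow]

/-- the function `f (x) + y h (x)` on the curve `y² = x³ + A x + B` near to its pole -/
theorem phi_ell {A B : L} (hA : v A ≤ 1) (hB : v B ≤ 1) {f h : Polynomial L} {d : ℕ}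
    (hf : ∀ i, v (f.coeff i) ≤ 1) (hh : ∀ i, v (h.coeff i) ≤ 1) (hfd : f.natDegree ≤ d + 1)
    (hhm : h.Monic) (hhd : h.natDegree = d) {x y : L} (hxy : y ^ 2 = x ^ 3 + A * x + B)
    (hphi : 1 < v (f.eval x + y * h.eval x)) :
    v (f.eval x + y * h.eval x) ^ 2 = v x ^ (2 * d + 3) := by
  have hx : 1 < v x := by
    by_contra hcon
    push Not at hcon
    have hy : v y ≤ 1 := by
      have h1 : v y ^ 2 ≤ 1 := by
        rw [← map_pow, hxy]
        refine Valuation.map_add_le _ (Valuation.map_add_le _ ?_ ?_) hB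
        · rw [map_pow]
          exact pow_le_one' hcon _
        · rw [map_mul]
          exact mul_le_one' hA hcon
      by_contra h2
      push Not at h2
      exact absurd h1 (not_le.2 (one_lt_pow₀ h2 two_ne_zero))
    have h1 : v (f.eval x + y * h.eval x) ≤ 1 := by
      refine Valuation.map_add_le _ (v_poly_le hf hcon) ?_
      rw [map_mul]
      exact mul_le_one' hy (v_poly_le hh hcon)
    exact absurd hphi (not_lt.2 h1)
  have hx0 : 0 < v x := zero_lt_one.trans hx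
  have hy2 : v y ^ 2 = v x ^ 3 := by
    rw [← map_pow, hxy, add_assoc]
    rw [Valuation.map_add_eq_of_lt_left _ ?_, map_pow]
    rw [map_pow]
    refine Valuation.map_add_lt _ ?_ ?_
    · rw [map_mul]
      calc v A * v x ≤ 1 * v x := mul_le_mul_left hA _
        _ = v x ^ 1 := by rw [one_mul, pow_one]
        _ < v x ^ 3 := pow_lt_pow_right₀ hx (by norm_num)
    · exact hB.trans_lt (one_lt_pow₀ hx (by norm_num))
  have h1 := v_poly_monic hh hhm hx
  have h2 := v_poly_le' hf hx.le hfd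
  rw [hhd] at h1
  have h3 : v (y * h.eval x) ^ 2 = v x ^ (2 * d + 3) := by
    rw [map_mul, h1, mul_pow, hy2, ← pow_mul, ← pow_add]
    congr 1
    ring
  have h4 : v (f.eval x) < v (y * h.eval x) := by
    refine lt_of_pow_lt_pow_left₀ 2 zero_le ?_
    rw [h3]
    calc v (f.eval x) ^ 2 ≤ (v x ^ (d + 1)) ^ 2 := pow_le_pow_left₀ zero_le h2 2
      _ = v x ^ (2 * d + 2) := by rw [← pow_mul]; congr 1; ring
      _ < v x ^ (2 * d + 3) := pow_lt_pow_right₀ hx (by omega)
  rw [Valuation.map_add_eq_of_lt_right _ h4, h3]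

/-- the function `f (1 / (u - 1))` near to its pole -/
theorem phi_gm {f : Polynomial L} (hf : ∀ i, v (f.coeff i) ≤ 1) (hfm : f.Monic) {u : L}
    (hphi : 1 < v (f.eval (u - 1)⁻¹)) :
    v (f.eval (u - 1)⁻¹) * v (u - 1) ^ f.natDegree = 1 := by
  have hx : 1 < v (u - 1)⁻¹ := by
    by_contra hcon
    push Not at hcon
    exact absurd hphi (not_lt.2 (v_poly_le hf hcon))
  rw [v_poly_monic hf hfm hx, map_inv₀, ← mul_pow]
  have h1 : v (u - 1) ≠ 0 := by
    intro h0
    rw [map_inv₀, h0, inv_zero] at hx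
    exact absurd hx (not_lt.2 zero_le_one)
  rw [inv_mul_cancel₀ h1, one_pow]

/-- The distance from the origin, in terms of a root of the prime. -/
theorem dist_ell {A B : L} (hA : v A ≤ 1) (hB : v B ≤ 1) {f h : Polynomial L} {κ d : ℕ}
    (hκ : κ = 2 * d + 3)
    (hf : ∀ i, v (f.coeff i) ≤ 1) (hh : ∀ i, v (h.coeff i) ≤ 1) (hfd : f.natDegree ≤ d + 1)
    (hhm : h.Monic) (hhd : h.natDegree = d) {x y : L} (hxy : y ^ 2 = x ^ 3 + A * x + B)
    {ρ : Γ₀} (hρ1 : ρ < 1) {N : ℕ} (hN : 0 < N)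
    (hphi : v (f.eval x + y * h.eval x) * ρ ^ (κ * N) = 1) :
    v x * ρ ^ (2 * N) = 1 := by
  have h1 : 1 < v (f.eval x + y * h.eval x) := by
    by_contra hcon
    push Not at hcon
    have h2 : ρ ^ (κ * N) < 1 := pow_lt_one₀ zero_le hρ1 (by
      rw [hκ]
      positivity)
    have h3 : v (f.eval x + y * h.eval x) * ρ ^ (κ * N) < 1 :=
      (mul_le_of_le_one_left' hcon).trans_lt h2
    rw [hphi] at h3
    exact lt_irrefl _ h3
  have h2 := phi_ell hA hB hf hh hfd hhm hhd hxy h1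
  have h3 : (v x * ρ ^ (2 * N)) ^ κ = 1 := by
    have h4 : (v (f.eval x + y * h.eval x) * ρ ^ (κ * N)) ^ 2 = 1 := by rw [hphi, one_pow]
    rw [mul_pow, h2, ← hκ, ← pow_mul] at h4
    rw [mul_pow, ← pow_mul]
    rw [← h4]
    congr 2
    ring
  exact (pow_left_inj₀ zero_le zero_le (by omega : κ ≠ 0)).1 (h3.trans (one_pow κ).symm)

/-- The distance from one, in terms of a root of the prime. -/
theorem dist_gm {f : Polynomial L} (hf : ∀ i, v (f.coeff i) ≤ 1) (hfm : f.Monic) {u : L} {κ : ℕ}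
    (hκ : f.natDegree = κ) (hκ0 : 0 < κ) {ρ : Γ₀} (hρ0 : 0 < ρ) (hρ1 : ρ < 1) {N : ℕ} (hN : 0 < N)
    (hphi : v (f.eval (u - 1)⁻¹) * ρ ^ (κ * N) = 1) : v (u - 1) = ρ ^ N := by
  have h1 : 1 < v (f.eval (u - 1)⁻¹) := by
    by_contra hcon
    push Not at hcon
    have h2 : ρ ^ (κ * N) < 1 := pow_lt_one₀ zero_le hρ1 (by positivity)
    have h3 : v (f.eval (u - 1)⁻¹) * ρ ^ (κ * N) < 1 :=
      (mul_le_of_le_one_left' hcon).trans_lt h2
    rw [hphi] at h3
    exact lt_irrefl _ h3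
  have h2 := phi_gm hf hfm h1
  have h3 : v (f.eval (u - 1)⁻¹) ≠ 0 := (zero_lt_one.trans h1).ne'
  rw [hκ] at h2
  have h4 : v (u - 1) ^ κ = (ρ ^ N) ^ κ := by
    refine mul_left_cancel₀ h3 ?_
    rw [h2, ← hphi, ← pow_mul, mul_comm N κ]
  exact (pow_left_inj₀ zero_le (pow_pos hρ0 N).le hκ0.ne').1 h4

end Pool.Agent.Q170.SA
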