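import Pool.Agent.Q170.SA.Unram

/-!
Valuation rings of `ℂ` above almost all primes which are unramified on a given finitely generated
field: the theorem (helper file).
-/

set_option autoImplicit false

namespace Pool.Agent.Q170.SA

/-- Above almost all primes there are valuation rings which contain given constants, in which given
algebraically independent numbers are units, and whose values on the field which is generated by the
constants are powers of the value of the prime. -/
theorem exists_val3 {k : Type} [Field k] [Algebra k ℂ] [CharZero k] (ι : Type) [Finite ι]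
    (t : ι → k) : ∃ D : ℕ, ∀ p : ℕ, p.Prime → D < p → ∀ (τ : Type) (x : τ → ℂ),
      AlgebraicIndependent k x → ∃ V : ValuationSubring ℂ,
        (p : ℂ) ∈ V.nonunits ∧ (∀ i, algebraMap k ℂ (t i) ∈ V) ∧ (∀ j, V.valuation (x j) = 1) ∧
        ∀ z ∈ Subfield.closure (Set.range t), z ≠ 0 → ∃ i : ℤ,
          V.valuation (algebraMap k ℂ z) = V.valuation (p : ℂ) ^ i := by
  classical
  obtain ⟨F0, halg0, hval⟩ := exists_val0 (k := k)
  let K1 : IntermediateField F0 k := IntermediateField.adjoin F0 (Set.range t)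
  have hfin : FiniteDimensional F0 K1 :=
    IntermediateField.finiteDimensional_adjoin fun z _ => (halg0 z).isIntegral
  obtain ⟨α, hα⟩ := Field.exists_primitive_element F0 K1
  have hαint : IsIntegral F0 α := IsIntegral.of_finite F0 α
  set P := minpoly F0 α with hPdef
  have hPm : P.Monic := minpoly.monic hαint
  have hPsep : P.Separable := (minpoly.irreducible hαint).separable
  have hgen : ∀ z : K1, ∃ g : Polynomial F0, Polynomial.aeval (α : k) g = (z : k) := by
    intro z
    have h1 : z ∈ IntermediateField.adjoin F0 {α} := by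
      rw [hα]
      trivial
    have h2 : z ∈ Algebra.adjoin F0 {α} := by
      rw [← IntermediateField.adjoin_simple_toSubalgebra_of_isAlgebraic hαint.isAlgebraic]
      exact h1
    rw [Algebra.adjoin_singleton_eq_range_aeval] at h2
    obtain ⟨g, hg⟩ := h2
    refine ⟨g, ?_⟩
    have h3 := Polynomial.aeval_algebraMap_apply k α g
    exact h3.trans (congrArg Subtype.val hg)
  have hder : Polynomial.aeval (α : k) P.derivative ≠ 0 := by
    have h1 : Polynomial.aeval (α : k) P = 0 := by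
      have h3 := Polynomial.aeval_algebraMap_apply k α P
      rw [hPdef, minpoly.aeval, map_zero] at h3
      exact h3
    exact hPsep.aeval_derivative_ne_zero h1
  let t' : ι ⊕ (Option (Option (Fin (P.natDegree + 1)))) → k := Sum.elim t fun o =>
    Option.elim o (α : k) fun o => Option.elim o ((Polynomial.aeval (α : k) P.derivative)⁻¹)
      fun i => ((P.coeff i : F0) : k)
  obtain ⟨D, hD⟩ := hval _ t'
  refine ⟨D, fun p hp hpD τ x hx => ?_⟩
  obtain ⟨V, hV, hVt, hVx, hVF⟩ := hD p hp hpD τ x hx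
  refine ⟨V, hV, fun i => hVt (Sum.inl i), hVx, ?_⟩
  have hVα : algebraMap k ℂ (α : k) ∈ V := hVt (Sum.inr none)
  have hVd : algebraMap k ℂ ((Polynomial.aeval (α : k) P.derivative)⁻¹) ∈ V :=
    hVt (Sum.inr (some none))
  have hVc : ∀ i, i ≤ P.natDegree → algebraMap k ℂ ((P.coeff i : F0) : k) ∈ V := fun i hi =>
    hVt (Sum.inr (some (some ⟨i, Nat.lt_succ_of_le hi⟩)))
  set v := V.valuation with hv
  have hp1 : v (p : ℂ) < 1 := by rwa [ValuationSubring.mem_nonunits_iff] at hV
  have hp0 : v (p : ℂ) ≠ 0 := by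
    rw [map_ne_zero]
    exact_mod_cast hp.ne_zero
  have hp00 : 0 < v (p : ℂ) := zero_lt_iff.2 hp0
  let φ : F0 →+* ℂ := (algebraMap k ℂ).comp F0.subtype
  let O : ValuationSubring F0 := V.comap φ
  let θ : O →+* ℂ := φ.comp O.subtype
  have h1 : ∀ c : O, v (θ c) ≤ 1 := fun c =>
    (ValuationSubring.valuation_le_one_iff V _).2 c.2
  have hFv : ∀ c : F0, c ≠ 0 → ∃ i : ℤ, v (φ c) = v (p : ℂ) ^ i := by
    intro c hc
    exact hVF c c.2 fun h0 => hc (Subtype.ext h0)
  have hφp : φ (p : F0) = (p : ℂ) := map_natCast φ p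
  have h2 : ∀ c : O, v (θ c) < 1 → (p : O) ∣ c := by
    intro c hc
    by_cases hc0 : (c : F0) = 0
    · have : c = 0 := Subtype.ext hc0
      rw [this]
      exact dvd_zero _
    obtain ⟨i, hi⟩ := hFv c hc0
    have hi1 : 1 ≤ i := by
      by_contra hcon
      have h3 : i ≤ 0 := by omega
      have h4 : 1 ≤ v (p : ℂ) ^ i := one_le_zpow_of_nonpos₀ hp00 hp1.le h3
      rw [← hi] at h4
      exact absurd hc (not_lt.2 h4)
    have hpF : (p : F0) ≠ 0 := by exact_mod_cast hp.ne_zero
    have h3 : (c : F0) / (p : F0) ∈ O := by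
      change φ ((c : F0) / (p : F0)) ∈ V
      rw [← ValuationSubring.valuation_le_one_iff, map_div₀, map_div₀, hφp]
      rw [← hv, hi, div_le_one₀ hp00]
      calc v (p : ℂ) ^ i ≤ v (p : ℂ) ^ (1 : ℤ) := zpow_le_zpow_right_of_le_one₀ hp00 hp1.le hi1
        _ = v (p : ℂ) := zpow_one _
    refine ⟨⟨_, h3⟩, Subtype.ext ?_⟩
    change (c : F0) = ((p : O) : F0) * ((c : F0) / (p : F0))
    have h4 : ((p : O) : F0) = (p : F0) := rfl
    rw [h4, mul_div_cancel₀ _ hpF]
  have h3 : ∀ c : O, v (θ c) = 1 → IsUnit c := by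
    intro c hc
    have hc0 : (c : F0) ≠ 0 := by
      intro h0
      have : c = 0 := Subtype.ext h0
      rw [this, map_zero, map_zero] at hc
      exact zero_ne_one hc
    have h4 : (c : F0)⁻¹ ∈ O := by
      change φ (c : F0)⁻¹ ∈ V
      rw [← ValuationSubring.valuation_le_one_iff, map_inv₀, map_inv₀]
      have h5 : V.valuation (φ (c : F0)) = 1 := hc
      rw [h5, inv_one]
    refine IsUnit.of_mul_eq_one ⟨_, h4⟩ (Subtype.ext ?_)
    exact mul_inv_cancel₀ hc0
  -- lifting polynomials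
  have hlift : ∀ g : Polynomial F0, (∀ i, φ (g.coeff i) ∈ V) → g ∈ Polynomial.lifts O.subtype := by
    intro g hg
    rw [Polynomial.lifts_iff_coeff_lifts]
    intro i
    exact ⟨⟨g.coeff i, hg i⟩, rfl⟩
  have hPlift : P ∈ Polynomial.lifts O.subtype := by
    refine hlift P fun i => ?_
    by_cases hi : i ≤ P.natDegree
    · exact hVc i hi
    · rw [Polynomial.coeff_eq_zero_of_natDegree_lt (by omega), map_zero]
      exact V.zero_mem
  obtain ⟨P', hP'map, -, hP'm⟩ := Polynomial.lifts_and_degree_eq_and_monic hPlift hPm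
  have heval : ∀ (g' : Polynomial O) (g : Polynomial F0), g'.map O.subtype = g →
      g'.eval₂ θ (algebraMap k ℂ (α : k)) = algebraMap k ℂ (Polynomial.aeval (α : k) g) := by
    intro g' g hg
    rw [← hg, Polynomial.aeval_def, Polynomial.hom_eval₂, Polynomial.eval₂_map]
    rfl
  have hα1 : v (algebraMap k ℂ (α : k)) ≤ 1 := (ValuationSubring.valuation_le_one_iff V _).2 hVα
  have hP'α : P'.eval₂ θ (algebraMap k ℂ (α : k)) = 0 := by
    rw [heval P' P hP'map]
    have h4 := Polynomial.aeval_algebraMap_apply k α P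
    rw [hPdef, minpoly.aeval, map_zero] at h4
    have h5 : Polynomial.aeval (α : k) P = 0 := h4
    rw [h5, map_zero]
  have hP'd : v (P'.derivative.eval₂ θ (algebraMap k ℂ (α : k))) = 1 := by
    refine le_antisymm (v_eval_le v θ h1 hα1 _) ?_
    rw [heval P'.derivative P.derivative (by rw [← Polynomial.derivative_map, hP'map])]
    have h4 := (ValuationSubring.valuation_le_one_iff V _).2 hVd
    rw [map_inv₀, map_inv₀] at h4
    have h5 : 0 < V.valuation (algebraMap k ℂ (Polynomial.aeval (α : k) P.derivative)) := by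
      rw [zero_lt_iff, map_ne_zero, map_ne_zero]
      exact hder
    exact (inv_le_one₀ h5).1 h4
  -- scaling
  have hscale : ∀ c : F0, ∃ M : ℕ, ∀ M' : ℕ, M ≤ M' → φ ((p : F0) ^ M' * c) ∈ V := by
    intro c
    by_cases hc0 : c = 0
    · refine ⟨0, fun M' _ => ?_⟩
      rw [hc0, mul_zero, map_zero]
      exact V.zero_mem
    obtain ⟨i, hi⟩ := hFv c hc0
    refine ⟨i.natAbs, fun M' hM' => ?_⟩
    rw [← ValuationSubring.valuation_le_one_iff, map_mul, map_mul, map_pow, map_pow, hφp, ← hv, hi,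
      ← zpow_natCast, ← zpow_add₀ hp0]
    have h4 : (0 : ℤ) ≤ (M' : ℤ) + i := by omega
    calc v (p : ℂ) ^ ((M' : ℤ) + i) ≤ v (p : ℂ) ^ (0 : ℤ) :=
          zpow_le_zpow_right_of_le_one₀ hp00 hp1.le h4
      _ = 1 := zpow_zero _
  have hbig : ∀ z : K1, ∃ (M : ℕ) (g' : Polynomial O),
      g'.eval₂ θ (algebraMap k ℂ (α : k)) = (p : ℂ) ^ M * algebraMap k ℂ (z : k) := by
    intro z
    obtain ⟨g, hg⟩ := hgen z
    choose M hM using fun i : ℕ => hscale (g.coeff i)
    let M' := ∑ i ∈ Finset.range (g.natDegree + 1), M i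
    have h4 : ∀ i, φ ((Polynomial.C ((p : F0) ^ M') * g).coeff i) ∈ V := by
      intro i
      rw [Polynomial.coeff_C_mul]
      by_cases hi : i ≤ g.natDegree
      · exact hM i M' (Finset.single_le_sum (f := M) (fun _ _ => Nat.zero_le _)
          (Finset.mem_range.2 (Nat.lt_succ_of_le hi)))
      · rw [Polynomial.coeff_eq_zero_of_natDegree_lt (by omega), mul_zero, map_zero]
        exact V.zero_mem
    obtain ⟨g', hg'⟩ := hlift _ h4
    refine ⟨M', g', ?_⟩
    have h5 := heval g' (Polynomial.C ((p : F0) ^ M') * g) (by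
      rw [← Polynomial.coe_mapRingHom]
      exact hg')
    rw [h5, map_mul, hg, Polynomial.aeval_C, map_mul]
    congr 1
    change φ ((p : F0) ^ M') = _
    rw [map_pow, hφp]
  intro z hz hz0
  have hzK : z ∈ K1 := by
    have h4 : Subfield.closure (Set.range t) ≤ K1.toSubfield := by
      rw [Subfield.closure_le]
      exact IntermediateField.subset_adjoin F0 _
    exact h4 hz
  obtain ⟨M, g, hg⟩ := hbig ⟨z, hzK⟩
  obtain ⟨M', g', hg'⟩ := hbig ⟨z, hzK⟩⁻¹
  have hg1 : (p : ℂ) ^ M * algebraMap k ℂ z = g.eval₂ θ (algebraMap k ℂ (α : k)) := hg.symm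
  have hg2 : (p : ℂ) ^ M' * (algebraMap k ℂ z)⁻¹ = g'.eval₂ θ (algebraMap k ℂ (α : k)) := by
    rw [hg', ← map_inv₀]
    rfl
  have hzC : algebraMap k ℂ z ≠ 0 := (map_ne_zero _).2 hz0
  have hvz : v (algebraMap k ℂ z) ≠ 0 := (map_ne_zero v).2 hzC
  have h4 : v (p : ℂ) ^ M' ≤ v (algebraMap k ℂ z) := by
    have h5 := v_eval_le v θ h1 hα1 g'
    rw [← hg2, map_mul, map_inv₀, map_pow] at h5
    rwa [← div_eq_mul_inv, div_le_one₀ (zero_lt_iff.2 hvz)] at h5
  rcases unram_step v θ hp1 h1 h2 h3 hP'm hα1 hP'α hP'd (M + M' + 1) g with ⟨j, hj⟩ | h5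
  · refine ⟨(j : ℤ) - M, ?_⟩
    rw [← hg1, map_mul, map_pow] at hj
    rw [zpow_sub₀ hp0, zpow_natCast, zpow_natCast, ← hj, mul_div_cancel_left₀ _ (pow_ne_zero _ hp0)]
  · exfalso
    rw [← hg1, map_mul, map_pow, pow_succ, pow_add] at h5
    have h6 : v (p : ℂ) ^ M * v (algebraMap k ℂ z) <
        v (p : ℂ) ^ M * v (algebraMap k ℂ z) := by
      calc v (p : ℂ) ^ M * v (algebraMap k ℂ z) ≤ v (p : ℂ) ^ M * v (p : ℂ) ^ M' * v (p : ℂ) := h5
        _ < v (p : ℂ) ^ M * v (p : ℂ) ^ M' * 1 :=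
          mul_lt_mul_of_pos_left hp1 (mul_pos (pow_pos hp00 _) (pow_pos hp00 _))
        _ = v (p : ℂ) ^ M * v (p : ℂ) ^ M' := mul_one _
        _ ≤ v (p : ℂ) ^ M * v (algebraMap k ℂ z) := mul_le_mul_right h4 _
    exact lt_irrefl _ h6

end Pool.Agent.Q170.SA
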