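import Pool.Agent.W466.EL
import Pool.Agent.Q170.SA.Unram2
import Pool.Agent.Q170.SA.Gm
import Pool.Agent.Q170.SA.Phi
import Pool.Agent.Q170.SA.Near
import Pool.Agent.Q170.ZP.MultiFam

/-!
Families with several parameters of subvarieties of split semiabelian varieties which degenerate to
the origin along one hypersurface: the members with integral parameters which are near to the
degenerate ones at one prime (helper file).
-/

set_option autoImplicit false

open MvPolynomial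

namespace Pool.Agent.Q170.SA

open Pool.Agent.W466.EP Pool.Agent.Q170.ZP.Multi WeierstrassCurve WeierstrassCurve.Affine

/-- translations of algebraically independent numbers -/
theorem algInd_sub {k : Type} [Field k] [Algebra k ℂ] {τ : Type} {x : τ → ℂ}
    (hx : AlgebraicIndependent k x) (ν : τ → k) :
    AlgebraicIndependent k (fun s => x s - algebraMap k ℂ (ν s)) := by
  let φ : MvPolynomial τ k →ₐ[k] MvPolynomial τ k := aeval fun s => X s - C (ν s)
  let ψ : MvPolynomial τ k →ₐ[k] MvPolynomial τ k := aeval fun s => X s + C (ν s)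
  have h1 : ψ.comp φ = AlgHom.id k _ := by
    apply MvPolynomial.algHom_ext
    intro s
    rw [AlgHom.comp_apply, AlgHom.id_apply]
    change ψ (aeval (fun s => X s - C (ν s)) (X s)) = X s
    rw [aeval_X, map_sub]
    change aeval (fun s => X s + C (ν s)) (X s) - ψ (C (ν s)) = X s
    rw [aeval_X, ← algebraMap_eq, AlgHom.commutes, add_sub_cancel_right]
  have hφ : Function.Injective φ := by
    intro a b hab
    have h2 := congrArg ψ hab
    rw [← AlgHom.comp_apply, ← AlgHom.comp_apply, h1] at h2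
    exact h2
  have h2 : aeval (fun s => x s - algebraMap k ℂ (ν s)) =
      (aeval x : MvPolynomial τ k →ₐ[k] ℂ).comp φ := by
    apply MvPolynomial.algHom_ext
    intro s
    rw [AlgHom.comp_apply, aeval_X]
    change _ = aeval x (aeval (fun s => X s - C (ν s)) (X s))
    rw [aeval_X, map_sub, aeval_X, ← algebraMap_eq, AlgHom.commutes]
  rw [AlgebraicIndependent, h2]
  have h3 : Function.Injective (aeval x : MvPolynomial τ k →ₐ[k] ℂ) := hx
  exact h3.comp hφ

/-- arithmetic of the exponents -/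
theorem expsS {κ : ℕ} (hκ : κ.Prime) {w : ℕ} (hw : ¬ κ ∣ w) {n : ℕ} (e δ : Fin n → ℕ)
    (hδ : ∀ i, δ i ≤ 1) (he : ∀ i, ¬ κ ∣ e i)
    (hee : ∀ i j, i ≠ j → ¬ e i ≡ e j [MOD κ]) {c : ℕ} (hc0 : 2 ≤ c) :
    (∀ i, 1 ≤ c * (w * e i)) ∧
    (∀ i j, i ≠ j → ¬ c * (w * e i) - δ i ≡ c * (w * e j) - δ j [MOD c * κ]) ∧
    ∀ i, ¬ c * κ ∣ c * (w * e i) - δ i := by
  have hw0 : 0 < w := Nat.pos_of_ne_zero fun h => hw (h ▸ dvd_zero κ)
  have he0 : ∀ i, 0 < e i := fun i => Nat.pos_of_ne_zero fun h => he i (h ▸ dvd_zero κ)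
  have h1 : ∀ i, 1 ≤ c * (w * e i) := fun i =>
    Nat.mul_pos (by omega) (Nat.mul_pos hw0 (he0 i))
  have hcast : ∀ i, ((c * (w * e i) - δ i : ℕ) : ℤ) = c * (w * e i) - δ i := by
    intro i
    rw [Nat.cast_sub ((hδ i).trans (h1 i))]
    push_cast
    rfl
  have hc0' : (c : ℤ) ≠ 0 := by
    have : 0 < c := by omega
    exact_mod_cast this.ne'
  have hcabs : ∀ x : ℤ, (c : ℤ) ∣ x → |x| ≤ 1 → x = 0 := by
    intro x hx hx1
    refine Int.eq_zero_of_abs_lt_dvd hx (hx1.trans_lt ?_)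
    exact_mod_cast hc0
  have hκw : ∀ x : ℤ, (κ : ℤ) ∣ w * x → (κ : ℤ) ∣ x := by
    intro x hx
    rcases (Nat.prime_iff_prime_int.1 hκ).dvd_or_dvd hx with h | h
    · exact absurd (Int.natCast_dvd_natCast.1 h) hw
    · exact h
  refine ⟨h1, ?_, ?_⟩
  · intro i j hij h
    rw [Nat.modEq_iff_dvd, hcast, hcast] at h
    have h4 : (c : ℤ) ∣ (c * (w * e j) - δ j) - (c * (w * e i) - δ i) := by
      refine dvd_trans ⟨κ, ?_⟩ h
      push_cast
      ring
    have h5 : (c : ℤ) ∣ (δ i : ℤ) - δ j := by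
      have h6 : (δ i : ℤ) - δ j = ((c * (w * e j) - δ j) - (c * (w * e i) - δ i)) -
        c * (w * (e j - e i)) := by ring
      rw [h6]
      exact dvd_sub h4 (dvd_mul_right _ _)
    have h6 : (δ i : ℤ) - δ j = 0 := by
      refine hcabs _ h5 ?_
      have h7 := hδ i
      have h8 := hδ j
      rw [abs_le]
      constructor <;> omega
    have h7 : ((c * κ : ℕ) : ℤ) ∣ c * (w * (e j - e i)) := by
      have h8 : (c : ℤ) * (w * (e j - e i)) = ((c * (w * e j) - δ j) - (c * (w * e i) - δ i)) -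
        (δ i - δ j) := by ring
      rw [h8, h6, sub_zero]
      exact h
    have h8 : (κ : ℤ) ∣ w * ((e j : ℤ) - e i) := by
      rw [Nat.cast_mul] at h7
      exact (mul_dvd_mul_iff_left hc0').1 h7
    exact hee i j hij (Nat.modEq_iff_dvd.2 (hκw _ h8))
  · intro i h
    have h2 : ((c * κ : ℕ) : ℤ) ∣ c * (w * e i) - δ i := by
      rw [← hcast]
      exact Int.natCast_dvd_natCast.2 h
    have h3 : (c : ℤ) ∣ (δ i : ℤ) := by
      have h4 : (δ i : ℤ) = c * (w * e i) - (c * (w * e i) - δ i) := by ring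
      rw [h4]
      refine dvd_sub (dvd_mul_right _ _) (dvd_trans ⟨κ, ?_⟩ h2)
      push_cast
      ring
    have h4 : (δ i : ℤ) = 0 := by
      refine hcabs _ h3 ?_
      have h7 := hδ i
      rw [abs_le]
      constructor <;> omega
    rw [h4, sub_zero, Nat.cast_mul] at h2
    have h5 := hκw _ ((mul_dvd_mul_iff_left hc0').1 h2)
    exact he i (Int.natCast_dvd_natCast.1 h5)

/-- the value of the function `f (x) + y h (x)`, where the coefficients are polynomials in the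
parameters -/
noncomputable def phiE (K : Subfield ℂ) {r : ℕ} (t : Fin r → ℂ)
    (f h : Polynomial (MvPolynomial (Fin r) K)) {A B : ℂ} : (crv A B).Point → ℂ
  | .zero => 0
  | .some x y _ => f.eval₂ (evM K t) x + y * h.eval₂ (evM K t) x

/-- the value of the function `f (1 / (u - 1))`, where the coefficients are polynomials in the
parameters -/
noncomputable def phiM (K : Subfield ℂ) {r : ℕ} (t : Fin r → ℂ)
    (f : Polynomial (MvPolynomial (Fin r) K)) (u : ℂ) : ℂ :=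
  f.eval₂ (evM K t) (u - 1)⁻¹

/-- the coefficients of a polynomial -/
def cf {K : Subfield ℂ} {r : ℕ} (P : MvPolynomial (Fin r) K) : Set K :=
  (fun u => P.coeff u) '' (P.support : Set (Fin r →₀ ℕ))

theorem cf_finite {K : Subfield ℂ} {r : ℕ} (P : MvPolynomial (Fin r) K) : (cf P).Finite :=
  (P.support.finite_toSet).image _

theorem cf_mem {K : Subfield ℂ} {r : ℕ} (V : ValuationSubring ℂ) {t : Fin r → ℂ}
    (ht : ∀ j, t j ∈ V) {P : MvPolynomial (Fin r) K} (hP : ∀ z ∈ cf P, (z : ℂ) ∈ V) :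
    evM K t P ∈ V := by
  rw [evM_apply, aeval_def, eval₂_eq']
  exact sum_mem fun u hu => mul_mem (hP _ ⟨u, hu, rfl⟩) (prod_mem fun j _ => pow_mem (ht j) _)

/-- Families which degenerate to the origin along one hypersurface: the members with integral
parameters which are near to it at one prime. -/
theorem mainS (K : Subfield ℂ) {κ' : Type} [Finite κ'] {N r s q m κ : ℕ}
    {n : Fin s → ℕ} (hκ : κ.Prime)
    (A B : Fin s → MvPolynomial (Fin r) K)
    (G : κ' → MvPolynomial (Fin (N + 1)) (MvPolynomial (Fin r) K))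
    (hG : ∀ i, ∃ e, (G i).IsHomogeneous e)
    (a b : ((g : Fin s) × Fin (n g)) ⊕ Fin q →
      MvPolynomial (Fin (N + 1)) (MvPolynomial (Fin r) K))
    (dg : ((g : Fin s) × Fin (n g)) ⊕ Fin q → ℕ) (ha : ∀ i, (a i).IsHomogeneous (dg i))
    (hb : ∀ i, (b i).IsHomogeneous (dg i))
    (f : ((g : Fin s) × Fin (n g)) ⊕ Fin q → Polynomial (MvPolynomial (Fin r) K))
    (h : (g : Fin s) × Fin (n g) → Polynomial (MvPolynomial (Fin r) K))
    (hh : ∀ i, (h i).Monic ∧ κ = 2 * (h i).natDegree + 3 ∧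
      (f (Sum.inl i)).natDegree ≤ (h i).natDegree + 1)
    (hf2 : ∀ j, (f (Sum.inr j)).Monic ∧ (f (Sum.inr j)).natDegree = κ)
    (c : ((g : Fin s) × Fin (n g)) ⊕ Fin q → MvPolynomial (Fin r) K)
    (D E : MvPolynomial (Fin r) ℤ)
    (b' : ((g : Fin s) × Fin (n g)) ⊕ Fin q → MvPolynomial (Fin r) K)
    (e : ((g : Fin s) × Fin (n g)) ⊕ Fin q → ℕ)
    (hc : ∀ i, c i = MvPolynomial.map (Int.castRingHom K) D ^ e i * b' i)
    (hdis : ∀ (t : Fin r → ℂ), aeval t D = 0 → aeval t E ≠ 0 →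
      (∀ I : Finset (((g : Fin s) × Fin (n g)) ⊕ Fin q), I.card = m + 1 →
      ∀ y : Fin (N + 1) → ℂ, (∀ i, eval₂ (evM K t) y (G i) = 0) →
      (∀ i ∈ I, eval₂ (evM K t) y (a i) * eval₂ (evM K t) y (b i) = 0) → y = 0) ∧
      ∀ i, evM K t (b' i) ≠ 0)
    (he : ∀ i, ¬ κ ∣ e i) (he4 : ∀ i, κ < 4 * e (Sum.inl i))
    (heE : ∀ g, ∀ i j : Fin (n g), i ≠ j →
      ¬ e (Sum.inl ⟨g, i⟩) ≡ e (Sum.inl ⟨g, j⟩) [MOD κ])
    (heM : ∀ i j : Fin q, i ≠ j → ¬ e (Sum.inr i) ≡ e (Sum.inr j) [MOD κ])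
    (Γ : Finset ℂ) (hΓ : ∀ γ ∈ Γ, γ ∈ K) :
    ∃ Q : ℕ, ∀ t : Fin r → ℤ, (∃ p : ℕ, p.Prime ∧ Q < p ∧
      ¬ κ ∣ (eval t D).natAbs.factorization p ∧ ¬ (p : ℤ) ∣ eval t E) →
      ∀ (P : ∀ g, Fin (n g) → (crv (evM K (fun j => (t j : ℂ)) (A g))
        (evM K (fun j => (t j : ℂ)) (B g))).Point)
        (u : Fin q → ℂ),
      ∀ y : Fin (N + 1) → ℂ, y ≠ 0 → (∀ i, eval₂ (evM K (fun j => (t j : ℂ))) y (G i) = 0) →
      (∀ i : (g : Fin s) × Fin (n g), eval₂ (evM K (fun j => (t j : ℂ))) y (b (Sum.inl i)) = 0 ∨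
        evM K (fun j => (t j : ℂ)) (c (Sum.inl i)) *
          eval₂ (evM K (fun j => (t j : ℂ))) y (b (Sum.inl i)) *
          phiE K (fun j => (t j : ℂ)) (f (Sum.inl i)) (h i) (P i.1 i.2) =
          eval₂ (evM K (fun j => (t j : ℂ))) y (a (Sum.inl i))) →
      (∀ i : Fin q, eval₂ (evM K (fun j => (t j : ℂ))) y (b (Sum.inr i)) = 0 ∨
        evM K (fun j => (t j : ℂ)) (c (Sum.inr i)) *
          eval₂ (evM K (fun j => (t j : ℂ))) y (b (Sum.inr i)) *
          phiM K (fun j => (t j : ℂ)) (f (Sum.inr i)) (u i) =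
          eval₂ (evM K (fun j => (t j : ℂ))) y (a (Sum.inr i))) →
      ∀ (M₁ : ∀ g, Submodule ℤ (Fin (n g) → ℤ)) (M₂ : Submodule ℤ (Fin q → ℤ)),
      (∀ g, ∀ ρ ∈ M₁ g, ∃ T : ℕ, 0 < T ∧
        Rat (Subfield.closure (Γ : Set ℂ)) (T • ∑ i, ρ i • P g i)) →
      (∀ β ∈ M₂, ∃ T : ℕ, 0 < T ∧ (∏ j, u j ^ β j) ^ T ∈ Subfield.closure (Γ : Set ℂ)) →
      ∀ S : Finset (((g : Fin s) × Fin (n g)) ⊕ Fin q),
        AlgebraicIndependent K (fun i : S => co P u i) →
        S.card + ∑ g, Module.finrank ℤ (M₁ g) + Module.finrank ℤ M₂ ≤ m := by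
  classical
  let k := algebraicClosure K ℂ
  have hcl : IsAlgClosure K k := inferInstance
  have hac : IsAlgClosed k := hcl.isAlgClosed
  obtain ⟨W, hW, hnear⟩ := nearS (K := K) (k := k) (m := m) G hG a b dg ha hb c D E b' e hc hdis
  -- the constants
  let C1 : Set K := (⋃ g, cf (A g)) ∪ (⋃ g, cf (B g)) ∪
    ((⋃ i, ⋃ j ∈ ((f i).support : Set ℕ), cf ((f i).coeff j)) ∪
      (⋃ i, ⋃ j ∈ ((h i).support : Set ℕ), cf ((h i).coeff j))) ∪
    (fun γ : Γ => (⟨γ, hΓ γ γ.2⟩ : K)) '' Set.univ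
  have hC1 : C1.Finite := by
    refine (((Set.finite_iUnion fun g => cf_finite _).union (Set.finite_iUnion fun g =>
      cf_finite _)).union ((Set.finite_iUnion fun i => (f i).support.finite_toSet.biUnion
        fun j _ => cf_finite _).union (Set.finite_iUnion fun i =>
        (h i).support.finite_toSet.biUnion fun j _ => cf_finite _))).union (Set.toFinite _)
  let W' : Set k := W ∪ (algebraMap K k) '' C1
  have hW' : W'.Finite := hW.union (hC1.image _)
  have := hW'.to_subtype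
  obtain ⟨Q, hQ⟩ := exists_val3 W' (fun z : W' => (z : k))
  refine ⟨max Q (2 * κ), ?_⟩
  rintro t ⟨p, hp, hpQ, hpκ, hpE⟩
  have hpQ1 : Q < p := (le_max_left _ _).trans_lt hpQ
  have hpκ2 : 2 * κ < p := (le_max_right _ _).trans_lt hpQ
  set tc : Fin r → ℂ := fun j => (t j : ℂ) with htc
  intro P u y hy0 hyG hP hu M₁ M₂ hM₁ hM₂ S hS
  by_contra hcon
  push Not at hcon
  have hSk : AlgebraicIndependent k (fun i : S => co P u i) := hS.extendScalars k
  -- the exponent at `p`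
  let w : ℕ := (eval t D).natAbs.factorization p
  have hw : ¬ κ ∣ w := hpκ
  have hw0 : w ≠ 0 := fun h0 => hw (h0 ▸ dvd_zero κ)
  have hD0 : eval t D ≠ 0 := by
    intro h0
    apply hw0
    change (eval t D).natAbs.factorization p = 0
    rw [h0, Int.natAbs_zero, Nat.factorization_zero, Finsupp.zero_apply]
  have hpD : (p : ℤ) ∣ eval t D := by
    rw [Int.natCast_dvd]
    by_contra h0
    exact hw0 (Nat.factorization_eq_zero_of_not_dvd h0)
  -- roots of the prime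
  have hR0 : 0 < 4 * κ := Nat.mul_pos (by norm_num) hκ.pos
  obtain ⟨π', hπ'⟩ := IsAlgClosed.exists_pow_nat_eq ((p : ℕ) : k) hR0
  have hπ'0 : π' ≠ 0 := by
    rintro rfl
    rw [zero_pow hR0.ne'] at hπ'
    exact hp.ne_zero (by exact_mod_cast hπ'.symm)
  let μ : ((g : Fin s) × Fin (n g)) ⊕ Fin q → k := Sum.elim
    (fun i => π' ^ (8 * (w * e (Sum.inl i)) - 1)) (fun j => (π' ^ (4 * (w * e (Sum.inr j)) - 1))⁻¹)
  let ν : ((g : Fin s) × Fin (n g)) ⊕ Fin q → k := Sum.elim (fun _ => 0) (fun _ => 1)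
  have hμ0 : ∀ i, μ i ≠ 0 := by
    intro i
    rcases i with i | j
    · exact pow_ne_zero _ hπ'0
    · exact inv_ne_zero (pow_ne_zero _ hπ'0)
  have hind := algInd_smul (algInd_sub hSk (fun i : S => ν i)) (fun i : S => μ i)
    (fun i => hμ0 i)
  obtain ⟨V, hV, hVW, hVx, hVF⟩ := hQ p hp hpQ1 _ _ hind
  set v := V.valuation with hv
  have hp1 : v (p : ℂ) < 1 := by rwa [ValuationSubring.mem_nonunits_iff] at hV
  let π : ℂ := algebraMap k ℂ π'
  have hπ : π ^ (4 * κ) = (p : ℂ) := by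
    change (algebraMap k ℂ π') ^ (4 * κ) = _
    rw [← map_pow, hπ', map_natCast]
  have hπ0 : π ≠ 0 := (map_ne_zero _).2 hπ'0
  set ρ := v π with hρ
  have hR : v (p : ℂ) = ρ ^ (4 * κ) := by rw [← hπ, map_pow]
  have hρ0 : 0 < ρ := zero_lt_iff.2 ((map_ne_zero v).2 hπ0)
  have hρ1 : ρ < 1 := by
    by_contra h0
    push Not at h0
    have h1 := one_le_pow₀ h0 (n := 4 * κ)
    rw [← hR] at h1
    exact absurd hp1 (not_lt.2 h1)
  have htV : ∀ j, tc j ∈ V := fun j => intCast_mem V _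
  have hKV : ∀ z ∈ C1, (z : ℂ) ∈ V := by
    intro z hz
    exact hVW ⟨algebraMap K k z, Or.inr ⟨z, hz, rfl⟩⟩
  have hAV : ∀ g, v (evM K tc (A g)) ≤ 1 := fun g =>
    (ValuationSubring.valuation_le_one_iff V _).2 (cf_mem V htV fun z hz =>
      hKV z (Or.inl (Or.inl (Or.inl (Set.mem_iUnion.2 ⟨g, hz⟩)))))
  have hBV : ∀ g, v (evM K tc (B g)) ≤ 1 := fun g =>
    (ValuationSubring.valuation_le_one_iff V _).2 (cf_mem V htV fun z hz =>
      hKV z (Or.inl (Or.inl (Or.inr (Set.mem_iUnion.2 ⟨g, hz⟩)))))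
  have hfV : ∀ i j, v (((f i).map (evM K tc)).coeff j) ≤ 1 := by
    intro i j
    rw [Polynomial.coeff_map]
    by_cases hj : j ∈ (f i).support
    · exact (ValuationSubring.valuation_le_one_iff V _).2 (cf_mem V htV fun z hz =>
        hKV z (Or.inl (Or.inr (Or.inl (Set.mem_iUnion.2 ⟨i, Set.mem_biUnion hj hz⟩)))))
    · rw [Polynomial.notMem_support_iff.1 hj, map_zero, map_zero]
      exact zero_le_one
  have hhV : ∀ i j, v (((h i).map (evM K tc)).coeff j) ≤ 1 := by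
    intro i j
    rw [Polynomial.coeff_map]
    by_cases hj : j ∈ (h i).support
    · exact (ValuationSubring.valuation_le_one_iff V _).2 (cf_mem V htV fun z hz =>
        hKV z (Or.inl (Or.inr (Or.inr (Set.mem_iUnion.2 ⟨i, Set.mem_biUnion hj hz⟩)))))
    · rw [Polynomial.notMem_support_iff.1 hj, map_zero, map_zero]
      exact zero_le_one
  have hDV : v (aeval tc D) = ρ ^ (4 * κ * w) := by
    rw [aeval_int, v_int_pow hp hp1 hD0, hR, ← pow_mul]
  have hDlt : v (aeval tc D) < 1 := by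
    rw [aeval_int]
    exact v_int_lt hp1 hpD
  have hEV : v (aeval tc E) = 1 := by
    rw [aeval_int]
    exact v_int_one hp hp1 hpE
  -- the bad coordinates
  let sv : ((g : Fin s) × Fin (n g)) ⊕ Fin q → ℂ := Sum.elim
    (fun i => phiE K tc (f (Sum.inl i)) (h i) (P i.1 i.2)) (fun j => phiM K tc (f (Sum.inr j)) (u j))
  obtain ⟨E', hE'c, hE'⟩ := hnear V (fun z hz => hVW ⟨z, Or.inl hz⟩) tc htV hDlt hEV sv y hy0 hyG
    (by
      intro i
      rcases i with i | j
      · exact hP i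
      · exact hu j)
  -- the values
  have hgoodE : ∀ i, Sum.inl i ∉ E' → v (xx (P i.1 i.2)) * ρ ^ (8 * (w * e (Sum.inl i))) = 1 := by
    intro i hi
    have h1 := (hE' _ hi).2
    rw [← hv, hDV, ← pow_mul] at h1
    change v (phiE K tc (f (Sum.inl i)) (h i) (P i.1 i.2)) * _ = 1 at h1
    generalize hPi : P i.1 i.2 = T at h1
    rcases T with _ | ⟨x, z, hn⟩
    · exfalso
      change v (0 : ℂ) * _ = 1 at h1
      rw [map_zero, zero_mul] at h1
      exact zero_ne_one h1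
    · change v (x : ℂ) * _ = 1
      have h2 : phiE K tc (f (Sum.inl i)) (h i) (Point.some x z hn) =
          ((f (Sum.inl i)).map (evM K tc)).eval x + z * ((h i).map (evM K tc)).eval x := by
        rw [Polynomial.eval_map, Polynomial.eval_map]
        rfl
      rw [h2] at h1
      have h3 := dist_ell (hAV i.1) (hBV i.1) (hh i).2.1 (hfV (Sum.inl i)) (hhV i)
        ((Polynomial.natDegree_map_le).trans (hh i).2.2) ((hh i).1.map _)
        ((hh i).1.natDegree_map _) (eqn hn) hρ1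
        (N := 4 * (w * e (Sum.inl i)))
        (Nat.mul_pos (by norm_num) (Nat.mul_pos (Nat.pos_of_ne_zero hw0)
          (Nat.pos_of_ne_zero fun h0 => he (Sum.inl i) (h0 ▸ dvd_zero κ))))
        (by
          rw [← h1]
          congr 2
          ring)
      rw [← h3]
      congr 2
      ring
  have hgoodM : ∀ j, Sum.inr j ∉ E' → v (u j - 1) = ρ ^ (4 * (w * e (Sum.inr j))) := by
    intro j hj
    have h1 := (hE' _ hj).2
    rw [← hv, hDV, ← pow_mul] at h1
    change v (phiM K tc (f (Sum.inr j)) (u j)) * _ = 1 at h1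
    have h2 : phiM K tc (f (Sum.inr j)) (u j) =
        ((f (Sum.inr j)).map (evM K tc)).eval (u j - 1)⁻¹ := by
      rw [Polynomial.eval_map]
      rfl
    rw [h2] at h1
    refine dist_gm (hfV (Sum.inr j)) ((hf2 j).1.map _)
      (by rw [(hf2 j).1.natDegree_map]; exact (hf2 j).2) hκ.pos hρ0 hρ1
      (Nat.mul_pos (by norm_num) (Nat.mul_pos (Nat.pos_of_ne_zero hw0)
          (Nat.pos_of_ne_zero fun h0 => he (Sum.inr j) (h0 ▸ dvd_zero κ)))) ?_
    rw [← h1]
    congr 2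
    ring
  have hSE : ∀ i, Sum.inl i ∈ S → v (xx (P i.1 i.2)) * ρ ^ (8 * (w * e (Sum.inl i)) - 1) = 1 := by
    intro i hi
    have h1 := hVx ⟨Sum.inl i, hi⟩
    change v (algebraMap k ℂ (π' ^ (8 * (w * e (Sum.inl i)) - 1)) *
      (xx (P i.1 i.2) - algebraMap k ℂ 0)) = 1 at h1
    rw [map_zero, sub_zero, map_mul, map_pow, map_pow, mul_comm] at h1
    exact h1
  have hSM : ∀ j, Sum.inr j ∈ S → v (u j - 1) = ρ ^ (4 * (w * e (Sum.inr j)) - 1) := by
    intro j hj
    have h1 := hVx ⟨Sum.inr j, hj⟩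
    change v (algebraMap k ℂ (π' ^ (4 * (w * e (Sum.inr j)) - 1))⁻¹ *
      (u j - algebraMap k ℂ 1)) = 1 at h1
    rw [map_one, map_mul, map_inv₀, map_inv₀, map_pow, map_pow] at h1
    have h2 : ρ ^ (4 * (w * e (Sum.inr j)) - 1) ≠ 0 := (pow_pos hρ0 _).ne'
    have h3 : (ρ ^ (4 * (w * e (Sum.inr j)) - 1))⁻¹ * v (u j - 1) = 1 := h1
    rwa [inv_mul_eq_one₀ h2, eq_comm] at h3
  have hpos : ∀ i, 0 < w * e i := fun i => Nat.mul_pos (Nat.pos_of_ne_zero hw0)
    (Nat.pos_of_ne_zero fun h0 => he i (h0 ▸ dvd_zero κ))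
  have hSsub : S ⊆ E' := by
    intro i hi
    by_contra hiE
    rcases i with i | j
    · have h1 := hgoodE i hiE
      have h2 := hSE i hi
      have h3 : 8 * (w * e (Sum.inl i)) = (8 * (w * e (Sum.inl i)) - 1) + 1 := by
        have := hpos (Sum.inl i)
        omega
      rw [h3, pow_succ, ← mul_assoc, h2, one_mul] at h1
      exact hρ1.ne h1
    · have h1 := hgoodM j hiE
      rw [hSM j hi] at h1
      have h2 := pow_right_injective₀ hρ0 hρ1.ne h1
      have := hpos (Sum.inr j)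
      omega
  let F : Finset (((g : Fin s) × Fin (n g)) ⊕ Fin q) := E' \ S
  have hFcard : F.card + S.card ≤ m := by
    have h1 : F.card + S.card = E'.card := Finset.card_sdiff_add_card_eq_card hSsub
    omega
  have hF2 : F.toLeft.card + F.toRight.card = F.card := Finset.card_toLeft_add_card_toRight
  let δ : ((g : Fin s) × Fin (n g)) ⊕ Fin q → ℕ := fun i => if i ∈ S then 1 else 0
  have hδ1 : ∀ i, δ i ≤ 1 := by
    intro i
    change (if i ∈ S then 1 else 0) ≤ 1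
    split_ifs <;> omega
  have hvE : ∀ i, Sum.inl i ∉ F →
      v (xx (P i.1 i.2)) * ρ ^ (8 * (w * e (Sum.inl i)) - δ (Sum.inl i)) = 1 := by
    intro i hi
    change _ * ρ ^ (8 * (w * e (Sum.inl i)) - (if Sum.inl i ∈ S then 1 else 0)) = 1
    split_ifs with h1
    · exact hSE i h1
    · exact hgoodE i fun h2 => hi (Finset.mem_sdiff.2 ⟨h2, h1⟩)
  have hvM : ∀ j, Sum.inr j ∉ F →
      v (u j - 1) = ρ ^ (4 * (w * e (Sum.inr j)) - δ (Sum.inr j)) := by
    intro j hj
    change _ = ρ ^ (4 * (w * e (Sum.inr j)) - (if Sum.inr j ∈ S then 1 else 0))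
    split_ifs with h1
    · exact hSM j h1
    · exact hgoodM j fun h2 => hj (Finset.mem_sdiff.2 ⟨h2, h1⟩)
  -- the field
  have hFv : ∀ z ∈ Subfield.closure (Γ : Set ℂ), z ≠ 0 → ∃ i : ℤ, v z = v (p : ℂ) ^ i := by
    intro z hz hz0
    have h1 : Subfield.closure (Γ : Set ℂ) ≤
        (Subfield.closure (Set.range fun z : W' => (z : k))).map (algebraMap k ℂ) := by
      rw [Subfield.closure_le]
      intro γ hγ
      refine Subfield.mem_map.2 ⟨algebraMap K k ⟨γ, hΓ γ hγ⟩, Subfield.subset_closure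
        ⟨⟨_, Or.inr ⟨⟨γ, hΓ γ hγ⟩, Or.inr ⟨⟨γ, hγ⟩, trivial, rfl⟩, rfl⟩⟩, rfl⟩, rfl⟩
    obtain ⟨z', hz', rfl⟩ := Subfield.mem_map.1 (h1 hz)
    exact hVF z' hz' fun h0 => hz0 (by rw [h0, map_zero])
  let Fg : ∀ g, Finset (Fin (n g)) := fun g => Finset.univ.filter fun i => Sum.inl ⟨g, i⟩ ∈ F
  have hFg : F.toLeft.card = ∑ g, (Fg g).card := by
    rw [← Finset.card_sigma]
    congr 1
    ext ⟨g, i⟩
    rw [Finset.mem_toLeft, Finset.mem_sigma]
    refine ⟨fun h => ⟨Finset.mem_univ _, Finset.mem_filter.2 ⟨Finset.mem_univ _, h⟩⟩,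
      fun h => (Finset.mem_filter.1 h.2).2⟩
  by_cases hex : ∃ g, (Fg g).card < Module.finrank ℤ (M₁ g)
  · -- a relation in the elliptic part
    obtain ⟨g, hlt⟩ := hex
    obtain ⟨β, hβ, hβ0, hβF⟩ := exists_rel (M₁ g) (Fg g) hlt
    obtain ⟨T, hT, hrat⟩ := hM₁ g β hβ
    obtain ⟨h1, h2, h3⟩ := expsS hκ hw (fun i : Fin (n g) => e (Sum.inl ⟨g, i⟩))
      (fun i => δ (Sum.inl ⟨g, i⟩)) (fun i => hδ1 _) (fun i => he _) (heE g) (c := 8)
      (by norm_num)
    refine ell_place (v := v) two_ne_zero (hAV g) (hBV g) hp hp1 hR hR0 hρ0 (P g) (Fg g)ᶜ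
      (fun i => 8 * (w * e (Sum.inl ⟨g, i⟩)) - δ (Sum.inl ⟨g, i⟩)) ?_ ?_ ?_
      (Subfield.closure (Γ : Set ℂ)) (M := 1) ?_ ?_ β hβ0 ?_ hT hrat
    · intro i hi
      refine hvE ⟨g, i⟩ fun h4 => ?_
      exact (Finset.mem_compl.1 hi) (Finset.mem_filter.2 ⟨Finset.mem_univ _, h4⟩)
    · intro i _
      have h4 := he4 ⟨g, i⟩
      have h5 := hδ1 (Sum.inl ⟨g, i⟩)
      have h6 : e (Sum.inl ⟨g, i⟩) ≤ w * e (Sum.inl ⟨g, i⟩) :=
        Nat.le_mul_of_pos_left _ (Nat.pos_of_ne_zero hw0)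
      omega
    · intro i _ j _ hij h4
      refine h2 i j hij ?_
      have h5 : 2 * (4 * κ) = 8 * κ := by ring
      rwa [h5] at h4
    · intro z hz hz0
      obtain ⟨i, hi⟩ := hFv z hz hz0
      exact ⟨1, one_pos, le_rfl, i, by rw [pow_one, hi]⟩
    · intro i _ h' h'0 h'1 h4
      have h5 : h' = 1 := by omega
      have h6 : 2 * (4 * κ) = 8 * κ := by ring
      rw [h5, one_mul, h6] at h4
      exact h3 i h4
    · intro i hi
      rw [Finset.mem_compl, not_not] at hi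
      exact hβF i hi
  · -- a relation in the multiplicative part
    push Not at hex
    have hle : ∑ g, Module.finrank ℤ (M₁ g) ≤ F.toLeft.card := by
      rw [hFg]
      exact Finset.sum_le_sum fun g _ => hex g
    have hlt2 : F.toRight.card < Module.finrank ℤ M₂ := by omega
    obtain ⟨β, hβ, hβ0, hβF⟩ := exists_rel M₂ F.toRight hlt2
    obtain ⟨T, hT, hrat⟩ := hM₂ β hβ
    obtain ⟨h1, h2, h3⟩ := expsS hκ hw (fun j : Fin q => e (Sum.inr j))
      (fun j => δ (Sum.inr j)) (fun j => hδ1 _) (fun j => he _) heM (c := 4)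
      (by norm_num)
    refine gm_place (v := v) hp hp1 hR hR0 hρ0 u F.toRightᶜ
      (fun j => 4 * (w * e (Sum.inr j)) - δ (Sum.inr j)) ?_ ?_ ?_
      (Subfield.closure (Γ : Set ℂ)) hFv ?_ β hβ0 ?_ hT hrat
    · intro j hj
      rw [Finset.mem_compl, Finset.mem_toRight] at hj
      exact hvM j hj
    · intro j _
      have h5 := hδ1 (Sum.inr j)
      have h6 := hpos (Sum.inr j)
      have h7 : 3 ≤ 4 * (w * e (Sum.inr j)) - δ (Sum.inr j) := by omega
      have h8 : 2 * κ ≤ p - 1 := by omega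
      calc 4 * κ < 3 * (2 * κ) := by
            have := hκ.pos
            omega
        _ ≤ (4 * (w * e (Sum.inr j)) - δ (Sum.inr j)) * (p - 1) := Nat.mul_le_mul h7 h8
    · intro i _ j _ hij h4
      exact h2 i j hij h4
    · intro i _ h4
      exact h3 i h4
    · intro j hj
      rw [Finset.mem_compl, not_not] at hj
      exact hβF j hj

end Pool.Agent.Q170.SA
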