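import Pool.Agent.W466.EE

/-!
Valuation rings of `ℂ` above almost all primes which are unramified on a given finitely generated
field (helper file).
-/

set_option autoImplicit false

open Function MvPolynomial

namespace Pool.Agent.Q170.SA

section core

variable {L : Type*} [Field L] {Γ₀ : Type*} [LinearOrderedCommGroupWithZero Γ₀]
  (v : Valuation L Γ₀) {O : Type*} [CommRing O] (θ : O →+* L)

theorem v_eval_le (h1 : ∀ c, v (θ c) ≤ 1) {α : L} (hα : v α ≤ 1) (g : Polynomial O) :
    v (g.eval₂ θ α) ≤ 1 := by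
  rw [Polynomial.eval₂_eq_sum_range]
  refine Valuation.map_sum_le _ fun i _ => ?_
  rw [map_mul, map_pow]
  exact mul_le_one' (h1 _) (pow_le_one' hα _)

theorem small_coeff (h1 : ∀ c, v (θ c) ≤ 1) (h3 : ∀ c, v (θ c) = 1 → IsUnit c) {α : L}
    (hα : v α ≤ 1) {d : ℕ} (hd : ∀ Q : Polynomial O, Q.Monic → v (Q.eval₂ θ α) < 1 →
      d ≤ Q.natDegree) : ∀ (n : ℕ) (g : Polynomial O), g.support.card = n → g.degree < d →
      v (g.eval₂ θ α) < 1 → ∀ i, v (θ (g.coeff i)) < 1 := by
  intro n
  induction n with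
  | zero =>
    intro g hg _ _ i
    have h2 : g = 0 := by
      rw [← Polynomial.card_support_eq_zero, hg]
    rw [h2, Polynomial.coeff_zero, map_zero, map_zero]
    exact zero_lt_one
  | succ n ih =>
    intro g hg hgd hgv i
    have hg0 : g ≠ 0 := by
      rintro rfl
      rw [Polynomial.support_zero, Finset.card_empty] at hg
      omega
    have hlead : v (θ g.leadingCoeff) < 1 := by
      by_contra hcon
      push Not at hcon
      have h4 := h3 _ (le_antisymm (h1 _) hcon)
      obtain ⟨c, hc⟩ := h4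
      have h5 : (Polynomial.C (↑c⁻¹ : O) * g).Monic := by
        rw [Polynomial.Monic, Polynomial.leadingCoeff_C_mul_of_isUnit (Units.isUnit _), ← hc,
          Units.inv_mul]
      have h6 := hd _ h5 (by
        rw [Polynomial.eval₂_mul, Polynomial.eval₂_C, map_mul]
        exact (mul_le_of_le_one_left' (h1 _)).trans_lt hgv)
      have h7 : (Polynomial.C (↑c⁻¹ : O) * g).natDegree ≤ g.natDegree :=
        Polynomial.natDegree_C_mul_le _ _
      have h8 := (Polynomial.natDegree_lt_iff_degree_lt hg0).2 hgd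
      omega
    have herase : g.eraseLead.eval₂ θ α = g.eval₂ θ α - θ g.leadingCoeff * α ^ g.natDegree := by
      have h4 := congrArg (Polynomial.eval₂ θ α) (Polynomial.eraseLead_add_C_mul_X_pow g)
      rw [Polynomial.eval₂_add, Polynomial.eval₂_mul, Polynomial.eval₂_C,
        Polynomial.eval₂_X_pow] at h4
      rw [← h4]
      ring
    have h4 := ih g.eraseLead (by
      rw [Polynomial.card_support_eraseLead' hg]) (lt_of_le_of_lt
        (Polynomial.eraseLead_degree_le) hgd) (by
      rw [herase]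
      refine Valuation.map_sub_lt _ hgv ?_
      rw [map_mul, map_pow]
      exact (mul_le_of_le_one_right' (pow_le_one' hα _)).trans_lt hlead) i
    by_cases hi : i = g.natDegree
    · rw [hi]
      exact hlead
    · rw [Polynomial.eraseLead_coeff_of_ne _ hi] at h4
      exact h4

/-- The main step: a nonunit is divisible by the prime. -/
theorem unram_core {p : ℕ} (hp : v (p : L) < 1) (h1 : ∀ c, v (θ c) ≤ 1)
    (h2 : ∀ c, v (θ c) < 1 → (p : O) ∣ c) (h3 : ∀ c, v (θ c) = 1 → IsUnit c)
    {P : Polynomial O} (hP : P.Monic) {α : L} (hα : v α ≤ 1) (hPα : P.eval₂ θ α = 0)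
    (hP' : v (P.derivative.eval₂ θ α) = 1) (g : Polynomial O) (hg : v (g.eval₂ θ α) < 1) :
    ∃ g2 R : Polynomial O, v (R.eval₂ θ α) = 1 ∧
      g.eval₂ θ α * R.eval₂ θ α = p * g2.eval₂ θ α := by
  classical
  have hex : ∃ d : ℕ, ∃ Q : Polynomial O, Q.Monic ∧ v (Q.eval₂ θ α) < 1 ∧ Q.natDegree = d :=
    ⟨_, P, hP, by rw [hPα, map_zero]; exact zero_lt_one, rfl⟩
  obtain ⟨Q, hQ, hQv, hQd⟩ := Nat.find_spec hex
  have hmin : ∀ Q' : Polynomial O, Q'.Monic → v (Q'.eval₂ θ α) < 1 →
      Q.natDegree ≤ Q'.natDegree := by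
    intro Q' h4 h5
    rw [hQd]
    exact Nat.find_min' hex ⟨Q', h4, h5, rfl⟩
  have hle := v_eval_le v θ h1 hα
  have hnt : Nontrivial O := by
    rcases subsingleton_or_nontrivial O with h | h
    · exfalso
      have h4 : v (θ 1) < 1 := by
        rw [Subsingleton.elim (1 : O) 0, map_zero, map_zero]
        exact zero_lt_one
      rw [map_one, map_one] at h4
      exact lt_irrefl _ h4
    · exact h
  have hdiv : ∀ f : Polynomial O, v (f.eval₂ θ α) < 1 → ∃ h r : Polynomial O,
      f = Q * h + Polynomial.C (p : O) * r := by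
    intro f hf
    have h4 := Polynomial.modByMonic_add_div f Q
    have h5 : v ((f %ₘ Q).eval₂ θ α) < 1 := by
      have h6 : (f %ₘ Q).eval₂ θ α = f.eval₂ θ α - Q.eval₂ θ α * (f /ₘ Q).eval₂ θ α := by
        have h7 := congrArg (Polynomial.eval₂ θ α) h4
        rw [Polynomial.eval₂_add, Polynomial.eval₂_mul] at h7
        rw [← h7]
        ring
      rw [h6]
      refine Valuation.map_sub_lt _ hf ?_
      rw [map_mul]
      exact (mul_le_of_le_one_right' (hle _)).trans_lt hQv
    have h6 : Polynomial.C (p : O) ∣ f %ₘ Q := by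
      rw [Polynomial.C_dvd_iff_dvd_coeff]
      intro i
      refine h2 _ (small_coeff v θ h1 h3 hα hmin _ (f %ₘ Q) rfl ?_ h5 i)
      rw [← Polynomial.degree_eq_natDegree hQ.ne_zero]
      exact Polynomial.degree_modByMonic_lt _ hQ
    obtain ⟨r, hr⟩ := h6
    refine ⟨f /ₘ Q, r, ?_⟩
    rw [← hr, add_comm]
    exact h4.symm
  obtain ⟨h, r, hhr⟩ := hdiv g hg
  obtain ⟨R, S, hRS⟩ := hdiv P (by rw [hPα, map_zero]; exact zero_lt_one)
  have hPe := congrArg (Polynomial.eval₂ θ α) hRS
  rw [hPα, Polynomial.eval₂_add, Polynomial.eval₂_mul, Polynomial.eval₂_mul,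
    Polynomial.eval₂_C, map_natCast] at hPe
  have hge := congrArg (Polynomial.eval₂ θ α) hhr
  rw [Polynomial.eval₂_add, Polynomial.eval₂_mul, Polynomial.eval₂_mul,
    Polynomial.eval₂_C, map_natCast] at hge
  have hR1 : v (R.eval₂ θ α) = 1 := by
    refine le_antisymm (hle _) ?_
    by_contra hcon
    push Not at hcon
    have h4 : P.derivative.eval₂ θ α = Q.derivative.eval₂ θ α * R.eval₂ θ α +
        (Q.eval₂ θ α * R.derivative.eval₂ θ α + p * S.derivative.eval₂ θ α) := by
      have h5 := congrArg (fun f => Polynomial.eval₂ θ α (Polynomial.derivative f)) hRS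
      simp only [Polynomial.derivative_add, Polynomial.derivative_mul,
        Polynomial.derivative_natCast, zero_mul, zero_add, Polynomial.eval₂_add,
        Polynomial.eval₂_mul, Polynomial.eval₂_natCast, map_natCast] at h5
      rw [h5]
      ring
    have h5 : v (P.derivative.eval₂ θ α) < 1 := by
      rw [h4]
      refine Valuation.map_add_lt _ ?_ (Valuation.map_add_lt _ ?_ ?_)
      · rw [map_mul]
        exact (mul_le_of_le_one_left' (hle _)).trans_lt hcon
      · rw [map_mul]
        exact (mul_le_of_le_one_right' (hle _)).trans_lt hQv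
      · rw [map_mul]
        exact (mul_le_of_le_one_right' (hle _)).trans_lt hp
    rw [hP'] at h5
    exact lt_irrefl _ h5
  refine ⟨r * R - S * h, R, hR1, ?_⟩
  rw [Polynomial.eval₂_sub, Polynomial.eval₂_mul, Polynomial.eval₂_mul, hge]
  linear_combination (- h.eval₂ θ α) * hPe

/-- The values of the polynomials in `α` are powers of the value of the prime, up to arbitrarily
small values. -/
theorem unram_step {p : ℕ} (hp : v (p : L) < 1) (h1 : ∀ c, v (θ c) ≤ 1)
    (h2 : ∀ c, v (θ c) < 1 → (p : O) ∣ c) (h3 : ∀ c, v (θ c) = 1 → IsUnit c)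
    {P : Polynomial O} (hP : P.Monic) {α : L} (hα : v α ≤ 1) (hPα : P.eval₂ θ α = 0)
    (hP' : v (P.derivative.eval₂ θ α) = 1) : ∀ (N : ℕ) (g : Polynomial O),
      (∃ j : ℕ, v (g.eval₂ θ α) = v (p : L) ^ j) ∨ v (g.eval₂ θ α) ≤ v (p : L) ^ N := by
  intro N
  induction N with
  | zero =>
    intro g
    right
    rw [pow_zero]
    exact v_eval_le v θ h1 hα g
  | succ N ih =>
    intro g
    rcases lt_or_eq_of_le (v_eval_le v θ h1 hα g) with h | h
    · obtain ⟨g2, R, hR, hg2⟩ := unram_core v θ hp h1 h2 h3 hP hα hPα hP' g h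
      have h4 := congrArg v hg2
      rw [map_mul, map_mul, hR, mul_one] at h4
      rcases ih g2 with ⟨j, hj⟩ | h5
      · left
        exact ⟨j + 1, by rw [h4, hj, pow_succ']⟩
      · right
        rw [h4, pow_succ']
        exact mul_le_mul_right h5 _
    · left
      exact ⟨0, by rw [h, pow_zero]⟩

end core

/-- A field over which the given field is algebraic, and valuation rings above almost all primes
which contain given constants and which are unramified on this field. -/
theorem exists_val0 {k : Type} [Field k] [Algebra k ℂ] [CharZero k] :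
    ∃ F0 : Subfield k, (∀ z : k, IsAlgebraic F0 z) ∧ ∀ (ι : Type) [Finite ι] (t : ι → k),
      ∃ D : ℕ, ∀ p : ℕ, p.Prime → D < p → ∀ (τ : Type) (x : τ → ℂ),
      AlgebraicIndependent k x → ∃ V : ValuationSubring ℂ,
        (p : ℂ) ∈ V.nonunits ∧ (∀ i, algebraMap k ℂ (t i) ∈ V) ∧ (∀ j, V.valuation (x j) = 1) ∧
        ∀ c ∈ F0, c ≠ 0 → ∃ i : ℤ,
          V.valuation (algebraMap k ℂ c) = V.valuation (p : ℂ) ^ i := by
  classical
  have : FaithfulSMul ℤ k := (faithfulSMul_iff_algebraMap_injective ℤ k).2 Int.cast_injective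
  obtain ⟨s, hs⟩ := exists_isTranscendenceBasis ℤ k
  have : Algebra.IsAlgebraic ℤ ℚ := IsLocalization.isAlgebraic ℚ (nonZeroDivisors ℤ)
  have halg : Algebra.IsAlgebraic (Algebra.adjoin ℤ (Set.range ((↑) : s → k))) k := hs.isAlgebraic
  let F0 : Subfield k := Subfield.closure (Set.range ((↑) : s → k))
  have hF0 : ∀ c ∈ F0, ∃ a b : MvPolynomial s ℤ,
      c = aeval ((↑) : s → k) a / aeval ((↑) : s → k) b := by
    intro c hc
    obtain ⟨y, hy, z, hz, hyz⟩ := Subfield.mem_closure_iff.1 hc
    have hr : ∀ w ∈ Subring.closure (Set.range ((↑) : s → k)), ∃ a : MvPolynomial s ℤ,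
        aeval ((↑) : s → k) a = w := by
      intro w hw
      have h3 : Subring.closure (Set.range ((↑) : s → k)) ≤
          (aeval ((↑) : s → k) : MvPolynomial s ℤ →ₐ[ℤ] k).range.toSubring := by
        rw [Subring.closure_le]
        rintro _ ⟨i, rfl⟩
        exact ⟨X i, aeval_X _ _⟩
      exact h3 hw
    obtain ⟨a, ha⟩ := hr y hy
    obtain ⟨b, hb⟩ := hr z hz
    exact ⟨a, b, by rw [ha, hb, hyz]⟩
  have halg0 : ∀ z : k, IsAlgebraic F0 z := by
    intro z
    obtain ⟨P, hP0, hP⟩ := halg.1 z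
    let φ : Algebra.adjoin ℤ (Set.range ((↑) : s → k)) →+* F0 :=
      (algebraMap (Algebra.adjoin ℤ (Set.range ((↑) : s → k))) k).codRestrict F0 (by
        intro a
        have h3 : Algebra.adjoin ℤ (Set.range ((↑) : s → k)) ≤
            subalgebraOfSubring F0.toSubring := by
          refine Algebra.adjoin_le ?_
          exact Subfield.subset_closure
        exact h3 a.2)
    have hφ : Function.Injective φ := by
      intro a b hab
      apply Subtype.ext
      exact congrArg (Subtype.val : F0 → k) hab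
    refine ⟨P.map φ, (Polynomial.map_ne_zero_iff hφ).2 hP0, ?_⟩
    rw [Polynomial.aeval_def, Polynomial.eval₂_map]
    exact hP
  refine ⟨F0, halg0, fun ι _ t => ?_⟩
  have := Fintype.ofFinite ι
  have h1 : ∀ i, ∃ f : MvPolynomial s ℤ, f ≠ 0 ∧
      IsIntegral (Algebra.adjoin ℤ (Set.range ((↑) : s → k)))
        (aeval ((↑) : s → k) f * t i) := by
    intro i
    obtain ⟨a, ha, hint⟩ := (halg.1 (t i)).exists_integral_multiple
    have h2 : (a : k) ∈ (aeval ((↑) : s → k) : MvPolynomial s ℤ →ₐ[ℤ] k).range := by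
      rw [← Algebra.adjoin_range_eq_range_aeval]
      exact a.2
    obtain ⟨f, hf⟩ := h2
    refine ⟨f, ?_, ?_⟩
    · rintro rfl
      apply ha
      apply Subtype.ext
      rw [← hf]
      simp
    · have h3 : aeval ((↑) : s → k) f = (a : k) := hf
      rw [h3]
      exact hint
  choose f hf hint using h1
  have h2 : ∀ i, ∃ m, (f i).coeff m ≠ 0 := fun i => by
    by_contra h
    push Not at h
    exact hf i (MvPolynomial.ext _ _ fun m => by rw [h m, coeff_zero])
  choose m hm using h2
  refine ⟨∑ i, ((f i).coeff (m i)).natAbs, fun p hp hpD τ x hx => ?_⟩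
  let y : s ⊕ τ → ℂ := Sum.elim (fun a => algebraMap k ℂ a) x
  have hsum : AlgebraicIndependent ℤ (Sum.elim x (algebraMap k ℂ ∘ ((↑) : s → k))) :=
    hs.1.sumElim_comp hx
  have hyZ : AlgebraicIndependent ℤ y := by
    have h3 := hsum.comp (Equiv.sumComm s τ) (Equiv.injective _)
    have h4 : Sum.elim x (algebraMap k ℂ ∘ ((↑) : s → k)) ∘ (Equiv.sumComm s τ) = y := by
      funext a
      rcases a with a | a <;> rfl
    rwa [h4] at h3
  have hyQ : AlgebraicIndependent ℚ y := hyZ.extendScalars ℚ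
  obtain ⟨V, hV1, hV2, hV3⟩ := Pool.Agent.W466.ZP.exists_gauss y hyQ hp
  have haev : ∀ g : MvPolynomial s ℤ, aeval y (rename (Sum.inl : s → s ⊕ τ) g) =
      algebraMap k ℂ (aeval ((↑) : s → k) g) := by
    intro g
    rw [aeval_rename]
    have h6 : y ∘ Sum.inl = fun a : s => algebraMap k ℂ a := rfl
    rw [h6]
    have h8 := MvPolynomial.map_aeval (R := ℤ) ((↑) : s → k) (algebraMap k ℂ) g
    rw [h8, aeval_def, coe_eval₂Hom]
    congr 1
    exact RingHom.ext_int _ _
  have hnd0 : ∀ g : MvPolynomial s ℤ, ¬ (C (p : ℤ) ∣ g) →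
      ¬ (C (p : ℤ) ∣ rename (Sum.inl : s → s ⊕ τ) g) := by
    intro g hg h
    apply hg
    rw [C_dvd_iff_dvd_coeff] at h ⊢
    intro u
    have h3 := h (u.mapDomain (Sum.inl : s → s ⊕ τ))
    rwa [coeff_rename_mapDomain _ Sum.inl_injective] at h3
  have hval1 : ∀ g : MvPolynomial s ℤ, ¬ (C (p : ℤ) ∣ g) →
      V.valuation (algebraMap k ℂ (aeval ((↑) : s → k) g)) = 1 := by
    intro g hg
    rw [← haev]
    exact hV3 _ (hnd0 g hg)
  have hndf : ∀ i, ¬ (C (p : ℤ) ∣ f i) := by
    intro i h
    rw [C_dvd_iff_dvd_coeff] at h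
    have h3 : p ∣ ((f i).coeff (m i)).natAbs := Int.natCast_dvd.1 (h (m i))
    have h4 := Nat.le_of_dvd (Int.natAbs_pos.2 (hm i)) h3
    have h5 : ((f i).coeff (m i)).natAbs ≤ ∑ i, ((f i).coeff (m i)).natAbs :=
      Finset.single_le_sum (f := fun i => ((f i).coeff (m i)).natAbs)
        (fun _ _ => Nat.zero_le _) (Finset.mem_univ i)
    omega
  refine ⟨V, hV1, fun i => ?_, fun j => ?_, ?_⟩
  · -- integrality of the `t i`
    have h3 := hval1 _ (hndf i)
    have h4 : algebraMap k ℂ (aeval ((↑) : s → k) (f i) * t i) ∈ V := by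
      obtain ⟨P, hP, hPe⟩ := hint i
      have hle : ∀ z ∈ Algebra.adjoin ℤ (Set.range ((↑) : s → k)), algebraMap k ℂ z ∈ V := by
        intro z hz
        have h9 : Algebra.adjoin ℤ (Set.range ((↑) : s → k)) ≤
            (subalgebraOfSubring V.toSubring).comap ((algebraMap k ℂ).toIntAlgHom) := by
          refine Algebra.adjoin_le ?_
          rintro _ ⟨a, rfl⟩
          exact hV2 (Sum.inl a)
        exact h9 hz
      let φ : Algebra.adjoin ℤ (Set.range ((↑) : s → k)) →+* V :=
        { toFun := fun a => ⟨algebraMap k ℂ a, hle a a.2⟩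
          map_one' := Subtype.ext (map_one _)
          map_mul' := fun _ _ => Subtype.ext (map_mul (algebraMap k ℂ) _ _)
          map_zero' := Subtype.ext (map_zero _)
          map_add' := fun _ _ => Subtype.ext (map_add (algebraMap k ℂ) _ _) }
      have h1 : IsIntegral V (algebraMap k ℂ (aeval ((↑) : s → k) (f i) * t i)) := by
        refine ⟨P.map φ, hP.map φ, ?_⟩
        rw [Polynomial.eval₂_map]
        have h10 := congrArg (algebraMap k ℂ) hPe
        rw [Polynomial.hom_eval₂, map_zero] at h10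
        exact h10
      obtain ⟨y, hy⟩ := IsIntegrallyClosed.isIntegral_iff.1 h1
      rw [← hy]
      exact y.2
    rw [← ValuationSubring.valuation_le_one_iff, map_mul, map_mul, h3, one_mul] at h4
    exact (ValuationSubring.valuation_le_one_iff _ _).1 h4
  · -- the `x j` are units
    have h3 : ¬ (C (p : ℤ) ∣ (X (Sum.inr j) : MvPolynomial (s ⊕ τ) ℤ)) := by
      intro h
      rw [C_dvd_iff_dvd_coeff] at h
      have h4 := h (Finsupp.single (Sum.inr j) 1)
      have h5 : (X (Sum.inr j) : MvPolynomial (s ⊕ τ) ℤ).coeff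
          (Finsupp.single (Sum.inr j) 1) = 1 := by
        rw [coeff_X, if_pos rfl]
      rw [h5] at h4
      have h6 := Int.natCast_dvd.1 h4
      exact hp.one_lt.ne' (Nat.dvd_one.1 h6)
    have h4 := hV3 _ h3
    rw [aeval_X] at h4
    exact h4
  · -- the values of the elements of the subfield
    have hp0 : V.valuation (p : ℂ) ≠ 0 := by
      rw [(map_ne_zero V.valuation)]
      exact_mod_cast hp.ne_zero
    have hpol : ∀ g : MvPolynomial s ℤ, g ≠ 0 → ∃ n : ℕ,
        V.valuation (algebraMap k ℂ (aeval ((↑) : s → k) g)) = V.valuation (p : ℂ) ^ n := by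
      intro g hg
      have hirr : Irreducible (C (p : ℤ) : MvPolynomial s ℤ) :=
        ((MvPolynomial.prime_C_iff s).2 (Nat.prime_iff_prime_int.1 hp)).irreducible
      obtain ⟨n, a, ha, hga⟩ := WfDvdMonoid.max_power_factor hg hirr
      refine ⟨n, ?_⟩
      rw [hga, map_mul, map_mul, map_mul, hval1 a ha, mul_one, map_pow, map_pow, map_pow]
      congr 2
      rw [aeval_C]
      simp
    intro c hc hc0
    obtain ⟨a, b, hab⟩ := hF0 c hc
    have ha : a ≠ 0 := by
      rintro rfl
      rw [map_zero, zero_div] at hab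
      exact hc0 hab
    have hb : b ≠ 0 := by
      rintro rfl
      rw [map_zero, div_zero] at hab
      exact hc0 hab
    obtain ⟨n, hn⟩ := hpol a ha
    obtain ⟨n', hn'⟩ := hpol b hb
    refine ⟨(n : ℤ) - n', ?_⟩
    rw [hab, map_div₀, map_div₀, hn, hn', zpow_sub₀ hp0, zpow_natCast, zpow_natCast]

end Pool.Agent.Q170.SA
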